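import Pool.Agent.Lib.P49c.Dmn
import Pool.Agent.Lib.P49q.Acc

/-!
# Module P49c.CId: codes of ideals of the core

The maximal elements of `J` for the dominance `Dm` are pairwise unrelated, so there are at most `w` of them; `enum_ex`
(`P49q/Acc.lean`) and `code_ex` (`P49k/Acc.lean`) give the code (the digit `n` where there is no
element); every element of `J` is below a maximal one.
-/

set_option autoImplicit false

namespace Pool.Agent.P49c

open Finset Pool.Agent.P99b9fe Pool.Agent.P49d Pool.Agent.P49k Pool.Agent.P49q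

/-- Every element of a finite set is below a maximal one. -/
theorem CIdAux.exists_max {r : ℕ → ℕ → Prop} (hr : SO r) (J : Finset ℕ) :
    ∀ (k : ℕ) (x : ℕ), x ∈ J → (∀ S ⊆ J, (∀ y ∈ S, r x y) → S.card ≤ k) →
      ∃ z ∈ J, (∀ y ∈ J, ¬ r z y) ∧ (x = z ∨ r x z) := by
  classical
  intro k
  induction k with
  | zero =>
    intro x hx h
    refine ⟨x, hx, fun y hy hxy => ?_, Or.inl rfl⟩
    have h1 := h {y} (singleton_subset_iff.2 hy) (fun z hz => by
      rw [mem_singleton] at hz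
      rw [hz]
      exact hxy)
    rw [card_singleton] at h1
    omega
  | succ k ih =>
    intro x hx h
    by_cases hm : ∀ y ∈ J, ¬ r x y
    · exact ⟨x, hx, hm, Or.inl rfl⟩
    · push Not at hm
      obtain ⟨y, hy, hxy⟩ := hm
      obtain ⟨z, hz, hz1, hz2⟩ := ih y hy (fun S hS hSy => by
        have hyS : y ∉ S := fun hc => hr.irr y (hSy y hc)
        have h1 := h (insert y S) (insert_subset hy hS) (fun z hz => by
          rcases mem_insert.1 hz with rfl | hz
          · exact hxy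
          · exact hr.trans x y z hxy (hSy z hz))
        rw [card_insert_of_notMem hyS] at h1
        omega)
      refine ⟨z, hz, hz1, Or.inr ?_⟩
      rcases hz2 with rfl | hz2
      · exact hxy
      · exact hr.trans x y z hxy hz2

theorem code_ideal {n w : ℕ} {r : ℕ → ℕ → Prop}
    (hw : ∀ S ⊆ range n, (∀ x ∈ S, Co n r x) → w < S.card → ∃ x ∈ S, ∃ y ∈ S, Dm n r x y)
    (J : Finset ℕ) (hJ : J ⊆ range n) (hJ' : ∀ x ∈ J, Co n r x)
    (hJ'' : ∀ x ∈ J, ∀ y < n, Co n r y → Dm n r y x → y ∈ J) :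
    ∃ c < (n + 1) ^ w, ∀ x, Il n r w c x ↔ x ∈ J := by
  classical
  set Z := J.filter (fun x => ∀ y ∈ J, ¬ Dm n r x y) with hZ
  have hZJ : Z ⊆ J := filter_subset _ _
  have hZc : Z.card ≤ w := by
    by_contra hlt
    push Not at hlt
    obtain ⟨x, hx, y, hy, hxy⟩ := hw Z (hZJ.trans hJ) (fun x hx => hJ' x (hZJ hx)) hlt
    exact (mem_filter.1 hx).2 y (hZJ hy) hxy
  obtain ⟨g, hg1, hg2⟩ := enum_ex n w Z hZc
  obtain ⟨c, hc, hc2⟩ := code_ex n w g (fun j hj => by
    rcases hg1 j hj with h | h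
    · exact h.le
    · exact (mem_range.1 (hJ (hZJ h))).le)
  refine ⟨c, hc, fun x => ⟨?_, ?_⟩⟩
  · rintro ⟨hxn, hxC, j, hj, hjn, hjx⟩
    have h1 : dg n c j = g j := hc2 j hj
    rw [h1] at hjn hjx
    have h2 : g j ∈ J := by
      rcases hg1 j hj with h | h
      · omega
      · exact hZJ h
    rcases hjx with h | h
    · rw [h]
      exact h2
    · exact hJ'' (g j) h2 x hxn hxC h
  · intro hx
    obtain ⟨z, hz, hz1, hz2⟩ := CIdAux.exists_max (dm_so n r) J J.card x hx
      (fun S hS _ => card_le_card hS)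
    obtain ⟨i, hi, hi2⟩ := hg2 z (mem_filter.2 ⟨hz, hz1⟩)
    have h1 : dg n c i = z := (hc2 i hi).trans hi2
    refine ⟨mem_range.1 (hJ hx), hJ' x hx, i, hi, ?_, ?_⟩
    · rw [h1]
      exact mem_range.1 (hJ hz)
    · rw [h1]
      exact hz2

/-- Sets of at most `m` elements are coded by `m` digits. -/
theorem code_set {n m : ℕ} (X : Finset ℕ) (hX : X ⊆ range n) (hm : X.card ≤ m) :
    ∃ x < (n + 1) ^ m, ∀ a, Xs n m x a ↔ a ∈ X := by
  obtain ⟨g, hg1, hg2⟩ := enum_ex n m X hm
  obtain ⟨c, hc, hc2⟩ := code_ex n m g (fun j hj => by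
    rcases hg1 j hj with h | h
    · exact h.le
    · exact (mem_range.1 (hX h)).le)
  refine ⟨c, hc, fun a => ⟨?_, ?_⟩⟩
  · rintro ⟨han, j, hj, hja⟩
    have h1 : dg n c j = g j := hc2 j hj
    rw [h1] at hja
    rcases hg1 j hj with h | h
    · omega
    · rw [← hja]
      exact h
  · intro ha
    obtain ⟨i, hi, hi2⟩ := hg2 a ha
    exact ⟨mem_range.1 (hX ha), i, hi, (hc2 i hi).trans hi2⟩

end Pool.Agent.P49c
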