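import Pool.Agent.Lib.P49c.CId

/-!
# Module P49c.Cmp: completeness

PROOF SKETCH. `code_ideal`, `code_set` are in `P49c/CId.lean`. Let `σ` be the schedule, monotone for the dominance
(`exch`), `J u = {q core, σ q < u}`, `p u` its code. In the slots `< u` there are at most `m * u` tasks, in the
slots `≥ u` and `< D` at most `m * (D - u)`.
`Sl`, clause 4: the sources counted have `σ a < u` (they precede a task with `σ q ≤ u`), as have the tasks of `J u`.
Clause 5: the sinks counted and the core tasks not in `J (u + 1)` have `σ ≥ u + 1`.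
`t` is the least number with `#So + |J (t + 1)| ≤ m * (t + 1)` (`D - 1` is one, as all tasks are done before `D`). `X0` = sources
with `σ ≥ t`, `Y0` = sinks with `σ ≤ t`: no `r` between them, no source in `X0` has a successor in `J (t + 1)`, all core
predecessors of `Y0` are in `J t`. `#X0 + m * t ≥ #So + |J t|`, so there is `X ⊆ X0` with `|X| = #So + |J t| - m * t` (this
is `≥ 0` by the choice of `t`, and `≤ m`), and `Y ⊆ Y0` with `|Y| = #Si + #Co - (m * (D - (t + 1)) + |J (t + 1)|)` (natural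
subtraction, `≤ m`). The last clause of `Mx` from `#So + #Si + #Co ≤ m * D`.
-/

set_option autoImplicit false

namespace Pool.Agent.P49c

open Finset Pool.Agent.P99b9fe Pool.Agent.P49d Pool.Agent.P49k Pool.Agent.P49q

namespace CmpAux

lemma cnt_eq {n : ℕ} {P : ℕ → Prop} (S : Finset ℕ) (h : ∀ x, x ∈ S ↔ x < n ∧ P x) : cnt n P = S.card := by
  classical
  unfold cnt
  congr 1
  ext x
  rw [Finset.mem_filter, Finset.mem_range, h]

/-- tasks in the slots `a, ..., b - 1` -/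
lemma slots {n m : ℕ} {σ : ℕ → ℕ} (hσ : ∀ u : ℕ, ((range n).filter (fun x => σ x = u)).card ≤ m)
    (S : Finset ℕ) (hS : S ⊆ range n) (a b : ℕ) (h : ∀ x ∈ S, a ≤ σ x ∧ σ x < b) : S.card ≤ m * (b - a) := by
  classical
  have h1 : S.card = ∑ i ∈ Ico a b, (S.filter (fun x => σ x = i)).card :=
    Finset.card_eq_sum_card_fiberwise (fun x hx => Finset.mem_coe.2 (Finset.mem_Ico.2 (h x (Finset.mem_coe.1 hx))))
  rw [h1]
  calc ∑ i ∈ Ico a b, (S.filter (fun x => σ x = i)).card ≤ ∑ _i ∈ Ico a b, m := by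
        refine Finset.sum_le_sum fun i _ => ?_
        refine (Finset.card_le_card ?_).trans (hσ i)
        exact Finset.filter_subset_filter _ hS
    _ = m * (b - a) := by
        rw [Finset.sum_const, Nat.card_Ico, smul_eq_mul, mul_comm]

end CmpAux

open CmpAux

theorem cmp {n w m D : ℕ} {r : ℕ → ℕ → Prop} (hr : SO r)
    (hw : ∀ S ⊆ range n, (∀ x ∈ S, Co n r x) → w < S.card → ∃ x ∈ S, ∃ y ∈ S, Dm n r x y)
    (hn : 0 < n) (h : Sd r (range n) m D) :
    ∃ t < D, ∃ x < (n + 1) ^ m, ∃ y < (n + 1) ^ m, ∃ p : ℕ → ℕ, (∀ i, p i < (n + 1) ^ w) ∧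
      (∀ q < n, ¬ Il n r w (p 0) q) ∧ (∀ q < n, Co n r q → Il n r w (p D) q) ∧
      (∀ i < D, Sl n r w m D i (p i) (p (i + 1))) ∧
      Mx n r w m D t (p t) (p (t + 1)) x y := by
  classical
  obtain ⟨σ, hσ, hD, hrσ, hdσ⟩ := exch hr h
  have hD0 : 0 < D := by
    have := hD 0 hn
    omega
  -- the sets
  obtain ⟨J, hJ⟩ : ∃ J : ℕ → Finset ℕ, ∀ u x, x ∈ J u ↔ x < n ∧ Co n r x ∧ σ x < u :=
    ⟨fun u => (range n).filter (fun x => Co n r x ∧ σ x < u), fun u x => by
      rw [Finset.mem_filter, Finset.mem_range]⟩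
  obtain ⟨C, hC⟩ : ∃ C : Finset ℕ, ∀ x, x ∈ C ↔ x < n ∧ Co n r x :=
    ⟨(range n).filter (fun x => Co n r x), fun x => by rw [Finset.mem_filter, Finset.mem_range]⟩
  obtain ⟨So', hSo⟩ : ∃ S : Finset ℕ, ∀ x, x ∈ S ↔ x < n ∧ So n r x :=
    ⟨(range n).filter (fun x => So n r x), fun x => by rw [Finset.mem_filter, Finset.mem_range]⟩
  obtain ⟨Si', hSi⟩ : ∃ S : Finset ℕ, ∀ x, x ∈ S ↔ x < n ∧ Si n r x :=
    ⟨(range n).filter (fun x => Si n r x), fun x => by rw [Finset.mem_filter, Finset.mem_range]⟩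
  have hcC : cnt n (Co n r) = C.card := cnt_eq C hC
  have hcSo : cnt n (So n r) = So'.card := cnt_eq So' hSo
  have hcSi : cnt n (Si n r) = Si'.card := cnt_eq Si' hSi
  have hSoC : ∀ x, So n r x → ¬ Co n r x := fun x h1 h2 => by
    obtain ⟨⟨y, hy, hyx⟩, -⟩ := h2
    exact h1 y hy hyx
  have hSiC : ∀ x, Si n r x → ¬ Co n r x := fun x h1 h2 => by
    obtain ⟨-, z, hz, hxz⟩ := h2
    exact h1.2 z hz hxz
  have hSoSi : ∀ x, So n r x → ¬ Si n r x := fun x h1 h2 => by
    obtain ⟨⟨y, hy, hyx⟩, -⟩ := h2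
    exact h1 y hy hyx
  have hJn : ∀ u, J u ⊆ range n := fun u x hx => mem_range.2 ((hJ u x).1 hx).1
  have hJmono : ∀ u, J u ⊆ J (u + 1) := fun u x hx => by
    rw [hJ] at hx ⊢
    exact ⟨hx.1, hx.2.1, by omega⟩
  have hJC : ∀ u, J u ⊆ C := fun u x hx => by
    rw [hJ] at hx
    rw [hC]
    exact ⟨hx.1, hx.2.1⟩
  -- codes
  have hcode : ∀ u, ∃ c < (n + 1) ^ w, ∀ x, Il n r w c x ↔ x ∈ J u := fun u =>
    code_ideal hw (J u) (hJn u) (fun x hx => ((hJ u x).1 hx).2.1) (fun x hx y hy hyC hyx => by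
      rw [hJ] at hx ⊢
      have := hdσ y hy x hx.1 hyx
      exact ⟨hy, hyC, by omega⟩)
  choose p hp1 hp2 using hcode
  have hcJ : ∀ u, cnt n (Il n r w (p u)) = (J u).card := fun u =>
    cnt_eq (J u) fun x => by
      rw [hp2]
      exact ⟨fun h1 => ⟨((hJ u x).1 h1).1, h1⟩, fun h1 => h1.2⟩
  have hJstep : ∀ u, (J (u + 1)).card ≤ (J u).card + m := by
    intro u
    have h1 : (J (u + 1) \ J u).card ≤ m * (u + 1 - u) := by
      refine slots hσ _ (Finset.sdiff_subset.trans (hJn _)) u (u + 1) fun x hx => ?_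
      rw [Finset.mem_sdiff, hJ, hJ] at hx
      obtain ⟨⟨h2, h3, h4⟩, h5⟩ := hx
      refine ⟨?_, h4⟩
      by_contra hcon
      exact h5 ⟨h2, h3, by omega⟩
    have h2 : (J (u + 1) \ J u).card = (J (u + 1)).card - (J u).card := Finset.card_sdiff_of_subset (hJmono u)
    have h3 : m * (u + 1 - u) = m := by
      rw [Nat.add_sub_cancel_left, mul_one]
    omega
  -- upper bounds
  have hlow : ∀ (u : ℕ) (S : Finset ℕ), S ⊆ range n → (∀ x ∈ S, ¬ Co n r x) → (∀ x ∈ S, σ x < u) →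
      S.card + (J u).card ≤ m * u := by
    intro u S hS h1 h2
    have h3 : Disjoint S (J u) := Finset.disjoint_left.2 fun x hx hx' => h1 x hx ((hJ u x).1 hx').2.1
    rw [← Finset.card_union_of_disjoint h3]
    have h4 := slots hσ (S ∪ J u) (Finset.union_subset hS (hJn u)) 0 u (fun x hx => by
      rcases Finset.mem_union.1 hx with h5 | h5
      · exact ⟨Nat.zero_le _, h2 x h5⟩
      · exact ⟨Nat.zero_le _, ((hJ u x).1 h5).2.2⟩)
    rwa [Nat.sub_zero] at h4
  have hhigh : ∀ (u : ℕ) (S : Finset ℕ), S ⊆ range n → (∀ x ∈ S, ¬ Co n r x) → (∀ x ∈ S, u ≤ σ x) →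
      S.card + C.card ≤ m * (D - u) + (J u).card := by
    intro u S hS h1 h2
    have h3 : Disjoint S (C \ J u) := Finset.disjoint_left.2 fun x hx hx' =>
      h1 x hx ((hC x).1 (Finset.mem_sdiff.1 hx').1).2
    have h4 := slots hσ (S ∪ (C \ J u)) (Finset.union_subset hS (fun x hx =>
        mem_range.2 ((hC x).1 (Finset.mem_sdiff.1 hx).1).1)) u D (fun x hx => by
      rcases Finset.mem_union.1 hx with h5 | h5
      · exact ⟨h2 x h5, hD x (mem_range.1 (hS h5))⟩
      · rw [Finset.mem_sdiff, hC, hJ] at h5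
        refine ⟨?_, hD x h5.1.1⟩
        by_contra hcon
        exact h5.2 ⟨h5.1.1, h5.1.2, by omega⟩)
    rw [Finset.card_union_of_disjoint h3] at h4
    have h5 : (C \ J u).card = C.card - (J u).card := Finset.card_sdiff_of_subset (hJC u)
    have h6 : (J u).card ≤ C.card := Finset.card_le_card (hJC u)
    omega
  -- everything
  have htot : So'.card + Si'.card + C.card ≤ m * D := by
    have h1 := hlow D (So' ∪ Si') (Finset.union_subset (fun x hx => mem_range.2 ((hSo x).1 hx).1)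
      (fun x hx => mem_range.2 ((hSi x).1 hx).1)) (fun x hx => by
        rcases Finset.mem_union.1 hx with h5 | h5
        · exact hSoC x ((hSo x).1 h5).2
        · exact hSiC x ((hSi x).1 h5).2) (fun x hx => by
        rcases Finset.mem_union.1 hx with h5 | h5
        · exact hD x ((hSo x).1 h5).1
        · exact hD x ((hSi x).1 h5).1)
    have h2 : (So' ∪ Si').card = So'.card + Si'.card :=
      Finset.card_union_of_disjoint (Finset.disjoint_left.2 fun x hx hx' =>
        hSoSi x ((hSo x).1 hx).2 ((hSi x).1 hx').2)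
    have h3 : J D = C := by
      ext x
      rw [hJ, hC]
      exact ⟨fun h4 => ⟨h4.1, h4.2.1⟩, fun h4 => ⟨h4.1, h4.2, hD x h4.1⟩⟩
    rw [h2, h3] at h1
    exact h1
  have hJD : (J D).card ≤ C.card := Finset.card_le_card (hJC D)
  -- the number `t`
  have hex : ∃ t, So'.card + (J (t + 1)).card ≤ m * (t + 1) := by
    refine ⟨D - 1, ?_⟩
    have e : D - 1 + 1 = D := by omega
    rw [e]
    omega
  obtain ⟨t, ht⟩ : ∃ t, t = Nat.find hex := ⟨_, rfl⟩
  have ht1 : So'.card + (J (t + 1)).card ≤ m * (t + 1) := by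
    rw [ht]
    exact Nat.find_spec hex
  have htD : t < D := by
    have h1 : Nat.find hex ≤ D - 1 := by
      apply Nat.find_le
      have e : D - 1 + 1 = D := by omega
      rw [e]
      omega
    omega
  have ht2 : m * t ≤ So'.card + (J t).card := by
    rcases Nat.eq_zero_or_pos t with h0 | h0
    · rw [h0, mul_zero]
      exact Nat.zero_le _
    · have h1 := Nat.find_min hex (m := t - 1) (by omega)
      have e : t - 1 + 1 = t := by omega
      rw [e] at h1
      omega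
  have hmt : m * (t + 1) = m * t + m := by ring
  have hmD : m * D = m * t + m + m * (D - (t + 1)) := by
    have e : D = t + 1 + (D - (t + 1)) := by omega
    calc m * D = m * (t + 1 + (D - (t + 1))) := by rw [← e]
      _ = m * t + m + m * (D - (t + 1)) := by ring
  -- the sets `X`, `Y`
  obtain ⟨X0, hX0⟩ : ∃ S : Finset ℕ, ∀ x, x ∈ S ↔ x ∈ So' ∧ t ≤ σ x :=
    ⟨So'.filter (fun x => t ≤ σ x), fun x => by rw [Finset.mem_filter]⟩
  obtain ⟨Y0, hY0⟩ : ∃ S : Finset ℕ, ∀ x, x ∈ S ↔ x ∈ Si' ∧ σ x ≤ t :=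
    ⟨Si'.filter (fun x => σ x ≤ t), fun x => by rw [Finset.mem_filter]⟩
  have hX1 : So'.card + (J t).card - m * t ≤ X0.card := by
    have h1 := hlow t (So' \ X0) (fun x hx => mem_range.2 ((hSo x).1 (Finset.mem_sdiff.1 hx).1).1)
      (fun x hx => hSoC x ((hSo x).1 (Finset.mem_sdiff.1 hx).1).2) (fun x hx => by
        rw [Finset.mem_sdiff, hX0] at hx
        by_contra hcon
        exact hx.2 ⟨hx.1, by omega⟩)
    have h2 : X0 ⊆ So' := fun x hx => ((hX0 x).1 hx).1
    have h3 : (So' \ X0).card = So'.card - X0.card := Finset.card_sdiff_of_subset h2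
    have h4 := Finset.card_le_card h2
    omega
  have hY1 : Si'.card + C.card - (m * (D - (t + 1)) + (J (t + 1)).card) ≤ Y0.card := by
    have h1 := hhigh (t + 1) (Si' \ Y0) (fun x hx => mem_range.2 ((hSi x).1 (Finset.mem_sdiff.1 hx).1).1)
      (fun x hx => hSiC x ((hSi x).1 (Finset.mem_sdiff.1 hx).1).2) (fun x hx => by
        rw [Finset.mem_sdiff, hY0] at hx
        by_contra hcon
        exact hx.2 ⟨hx.1, by omega⟩)
    have h2 : Y0 ⊆ Si' := fun x hx => ((hY0 x).1 hx).1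
    have h3 : (Si' \ Y0).card = Si'.card - Y0.card := Finset.card_sdiff_of_subset h2
    have h4 := Finset.card_le_card h2
    omega
  obtain ⟨X, hXs, hXc⟩ := Finset.exists_subset_card_eq hX1
  obtain ⟨Y, hYs, hYc⟩ := Finset.exists_subset_card_eq hY1
  have hJt := Finset.card_le_card (hJmono t)
  have hXm : X.card ≤ m := by omega
  have hlast : X.card + Y.card + (J (t + 1)).card ≤ (J t).card + m := by omega
  have hYm : Y.card ≤ m := by omega
  have hXn : X ⊆ range n := fun x hx => mem_range.2 ((hSo x).1 ((hX0 x).1 (hXs hx)).1).1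
  have hYn : Y ⊆ range n := fun x hx => mem_range.2 ((hSi x).1 ((hY0 x).1 (hYs hx)).1).1
  obtain ⟨x, hx1, hx2⟩ := code_set (m := m) X hXn hXm
  obtain ⟨y, hy1, hy2⟩ := code_set (m := m) Y hYn hYm
  have hcX : cnt n (Xs n m x) = X.card := cnt_eq X fun a => by
    rw [hx2]
    exact ⟨fun h1 => ⟨mem_range.1 (hXn h1), h1⟩, fun h1 => h1.2⟩
  have hcY : cnt n (Xs n m y) = Y.card := cnt_eq Y fun a => by
    rw [hy2]
    exact ⟨fun h1 => ⟨mem_range.1 (hYn h1), h1⟩, fun h1 => h1.2⟩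
  refine ⟨t, htD, x, hx1, y, hy1, p, hp1, ?_, ?_, ?_, ?_⟩
  · intro q _ h1
    rw [hp2, hJ] at h1
    omega
  · intro q hq h1
    rw [hp2, hJ]
    exact ⟨hq, h1, hD q hq⟩
  · intro i hi
    refine ⟨?_, ?_, ?_, ?_, ?_⟩
    · intro q _ h1
      rw [hp2] at h1 ⊢
      exact hJmono i h1
    · intro q hq h1 h2 z hz hzC hzq
      rw [hp2, hJ] at h1 h2 ⊢
      have h3 := hrσ z hz q hq hzq
      exact ⟨hz, hzC, by omega⟩
    · rw [hcJ, hcJ]
      exact hJstep i
    · rw [hcJ]
      obtain ⟨S, hS⟩ : ∃ S : Finset ℕ, ∀ a, a ∈ S ↔ a < n ∧ (So n r a ∧ ∃ q < n, Il n r w (p (i + 1)) q ∧ r a q) :=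
        ⟨(range n).filter (fun a => So n r a ∧ ∃ q < n, Il n r w (p (i + 1)) q ∧ r a q), fun a => by
          rw [Finset.mem_filter, Finset.mem_range]⟩
      rw [cnt_eq S hS]
      refine hlow i S (fun a ha => mem_range.2 ((hS a).1 ha).1) (fun a ha => hSoC a ((hS a).1 ha).2.1) ?_
      intro a ha
      obtain ⟨h1, h2, q, hq, h3, h4⟩ := (hS a).1 ha
      rw [hp2, hJ] at h3
      have h5 := hrσ a h1 q hq h4
      omega
    · rw [hcJ, hcC]
      obtain ⟨S, hS⟩ : ∃ S : Finset ℕ, ∀ a, a ∈ S ↔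
          a < n ∧ (Si n r a ∧ ∃ q < n, Co n r q ∧ ¬ Il n r w (p i) q ∧ r q a) :=
        ⟨(range n).filter (fun a => Si n r a ∧ ∃ q < n, Co n r q ∧ ¬ Il n r w (p i) q ∧ r q a), fun a => by
          rw [Finset.mem_filter, Finset.mem_range]⟩
      rw [cnt_eq S hS]
      refine hhigh (i + 1) S (fun a ha => mem_range.2 ((hS a).1 ha).1) (fun a ha => hSiC a ((hS a).1 ha).2.1) ?_
      intro a ha
      obtain ⟨h1, h2, q, hq, h3, h4, h5⟩ := (hS a).1 ha
      rw [hp2, hJ] at h4
      have h6 := hrσ q hq a h1 h5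
      have h7 : ¬ σ q < i := fun h8 => h4 ⟨hq, h3, h8⟩
      omega
  · refine ⟨?_, ?_, ?_, ?_, ?_, ?_⟩
    · intro a ha h1
      rw [hx2] at h1
      have h2 := (hX0 a).1 (hXs h1)
      refine ⟨((hSo a).1 h2.1).2, fun q hq h3 h4 => ?_⟩
      rw [hp2, hJ] at h3
      have h5 := hrσ a ha q hq h4
      omega
    · intro b hb h1
      rw [hy2] at h1
      have h2 := (hY0 b).1 (hYs h1)
      refine ⟨((hSi b).1 h2.1).2, fun q hq h3 h4 => ?_⟩
      rw [hp2, hJ]
      have h5 := hrσ q hq b hb h4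
      exact ⟨hq, h3, by omega⟩
    · intro a ha b hb h1 h2 h3
      rw [hx2] at h1
      rw [hy2] at h2
      have h4 := (hX0 a).1 (hXs h1)
      have h5 := (hY0 b).1 (hYs h2)
      have h6 := hrσ a ha b hb h3
      omega
    · rw [hcSo, hcJ, hcX]
      omega
    · rw [hcSi, hcC, hcJ, hcY]
      omega
    · rw [hcX, hcY, hcJ, hcJ]
      exact hlast

end Pool.Agent.P49c
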