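import Pool.Agent.Lib.P49q.Defs

/-!
# A fixed number of processors, inner tasks of bounded dominance width: definitions for the proof

The tasks are the numbers `0, ..., n - 1`. The core consists of the tasks with a predecessor and a
successor, the sources have no predecessor, the sinks have a predecessor and no successor.
-/

set_option autoImplicit false

namespace Pool.Agent.P49c

open Finset Pool.Agent.P99b9fe Pool.Agent.P49d Pool.Agent.P49q

/-- `x` has a predecessor and a successor. -/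
def Co (n : ℕ) (r : ℕ → ℕ → Prop) (x : ℕ) : Prop := (∃ y < n, r y x) ∧ ∃ z < n, r x z

/-- `x` has no predecessor. -/
def So (n : ℕ) (r : ℕ → ℕ → Prop) (x : ℕ) : Prop := ∀ y < n, ¬ r y x

/-- `x` has a predecessor and no successor. -/
def Si (n : ℕ) (r : ℕ → ℕ → Prop) (x : ℕ) : Prop := (∃ y < n, r y x) ∧ ∀ z < n, ¬ r x z

/-- `y` dominates `x`: predecessors of `x` are predecessors of `y`, successors of `y` are
successors of `x`; ties are broken by the numbers. -/
def Dm (n : ℕ) (r : ℕ → ℕ → Prop) (x y : ℕ) : Prop :=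
  (∀ z < n, r z x → r z y) ∧ (∀ z < n, r y z → r x z) ∧
    ((∀ z < n, r z y → r z x) → (∀ z < n, r x z → r y z) → x < y)

/-- The ideal of the core, for the dominance, which is generated by the first `w` digits of `c`. -/
def Il (n : ℕ) (r : ℕ → ℕ → Prop) (w c x : ℕ) : Prop :=
  x < n ∧ Co n r x ∧ ∃ j < w, dg n c j < n ∧ (x = dg n c j ∨ Dm n r x (dg n c j))

open Classical in
/-- The number of the numbers `< n` with the property `P`. -/
noncomputable def cnt (n : ℕ) (P : ℕ → Prop) : ℕ := ((range n).filter P).card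

/-- The core tasks in the ideal `d` and not in the ideal `c` are done in the slot `u`: they can be
done together, and there is enough room before the slot for the sources, and after it for the
sinks, which need it. -/
def Sl (n : ℕ) (r : ℕ → ℕ → Prop) (w m D u c d : ℕ) : Prop :=
  (∀ x < n, Il n r w c x → Il n r w d x) ∧
  (∀ x < n, Il n r w d x → ¬ Il n r w c x → ∀ y < n, Co n r y → r y x → Il n r w c y) ∧
  cnt n (Il n r w d) ≤ cnt n (Il n r w c) + m ∧
  cnt n (fun a => So n r a ∧ ∃ q < n, Il n r w d q ∧ r a q) + cnt n (Il n r w c) ≤ m * u ∧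
  cnt n (fun b => Si n r b ∧ ∃ q < n, Co n r q ∧ ¬ Il n r w c q ∧ r q b) + cnt n (Co n r) ≤
    m * (D - (u + 1)) + cnt n (Il n r w d)

/-- The set coded by the first `m` digits of `x`. -/
def Xs (n m x a : ℕ) : Prop := a < n ∧ ∃ j < m, dg n x j = a

/-- The slot `u` is the slot which may have sources (those coded by `x`) and sinks (those coded by
`y`). -/
def Mx (n : ℕ) (r : ℕ → ℕ → Prop) (w m D u c d x y : ℕ) : Prop :=
  (∀ a < n, Xs n m x a → So n r a ∧ ∀ q < n, Il n r w d q → ¬ r a q) ∧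
  (∀ b < n, Xs n m y b → Si n r b ∧ ∀ q < n, Co n r q → r q b → Il n r w c q) ∧
  (∀ a < n, ∀ b < n, Xs n m x a → Xs n m y b → ¬ r a b) ∧
  cnt n (So n r) + cnt n (Il n r w c) ≤ m * u + cnt n (Xs n m x) ∧
  cnt n (Si n r) + cnt n (Co n r) ≤
    m * (D - (u + 1)) + cnt n (Il n r w d) + cnt n (Xs n m y) ∧
  cnt n (Xs n m x) + cnt n (Xs n m y) + cnt n (Il n r w d) ≤ cnt n (Il n r w c) + m

/-- The rule for the ideals which can be reached after `u` slots. -/
def pC (n : ℕ) (r : ℕ → ℕ → Prop) (w m D t x y : ℕ) (T : ℕ → Prop) (u c : ℕ) : Prop :=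
  (u = 0 ∧ ∀ q < n, ¬ Il n r w c q) ∨
    (0 < u ∧ ∃ c' < (n + 1) ^ w, T ((u - 1) * (n + 1) ^ w + c') ∧ Sl n r w m D (u - 1) c' c ∧
      (u - 1 = t → Mx n r w m D (u - 1) c' c x y))

/-- The rule for the index `u * (n + 1) ^ w + c`. -/
def pR (n : ℕ) (r : ℕ → ℕ → Prop) (w m D t x y : ℕ) (T : ℕ → Prop) (p : ℕ) : Prop :=
  pC n r w m D t x y T (p / (n + 1) ^ w) (p % (n + 1) ^ w)

/-- The ideal `c` can be reached after `u` slots. -/
def Pt (n : ℕ) (r : ℕ → ℕ → Prop) (w m D t x y u c : ℕ) : Prop :=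
  tabP (pR n r w m D t x y) ((n + 1) * (n + 1) ^ w) ((n + 1) * (n + 1) ^ w) (u * (n + 1) ^ w + c)

/-- The algorithm finds a schedule for the deadline `D`. -/
def AccC (n : ℕ) (r : ℕ → ℕ → Prop) (w m D : ℕ) : Prop :=
  ∃ t < D, ∃ x < (n + 1) ^ m, ∃ y < (n + 1) ^ m, ∃ c < (n + 1) ^ w,
    (∀ q < n, Co n r q → Il n r w c q) ∧ Pt n r w m D t x y D c

open Classical in
/-- The number found by the algorithm. -/
noncomputable def gvalC (n : ℕ) (r : ℕ → ℕ → Prop) (w m : ℕ) : ℕ :=
  ((range n).filter (fun D => ∀ D' < D + 1, ¬ AccC n r w m D')).card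

end Pool.Agent.P49c
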