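import Pool.Agent.Lib.P49c.Defs

/-!
# Module P49c.Dmn: the dominance order and schedules which are monotone for it
-/

set_option autoImplicit false

namespace Pool.Agent.P49c

open Finset Pool.Agent.P99b9fe Pool.Agent.P49d Pool.Agent.P49q

theorem dm_so (n : ℕ) (r : ℕ → ℕ → Prop) : SO (Dm n r) where
  irr x h := lt_irrefl x (h.2.2 (fun _ _ h1 => h1) (fun _ _ h1 => h1))
  trans x y z h1 h2 := by
    refine ⟨fun a ha h => h2.1 a ha (h1.1 a ha h), fun a ha h => h1.2.1 a ha (h2.2.1 a ha h),
      fun h3 h4 => ?_⟩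
    have h5 : x < y := h1.2.2 (fun a ha h => h3 a ha (h2.1 a ha h))
      (fun a ha h => h2.2.1 a ha (h4 a ha h))
    have h6 : y < z := h2.2.2 (fun a ha h => h1.1 a ha (h3 a ha h))
      (fun a ha h => h4 a ha (h1.2.1 a ha h))
    exact h5.trans h6

/-- Two different tasks, one of them dominated by the other one, are comparable for `Dm`. -/
theorem dm_or {n : ℕ} {r : ℕ → ℕ → Prop} {x y : ℕ} (hxy : x ≠ y)
    (h1 : ∀ z < n, r z x → r z y) (h2 : ∀ z < n, r y z → r x z) : Dm n r x y ∨ Dm n r y x := by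
  by_cases h3 : (∀ z < n, r z y → r z x) ∧ (∀ z < n, r x z → r y z)
  · rcases Nat.lt_or_gt_of_ne hxy with h | h
    · exact Or.inl ⟨h1, h2, fun _ _ => h⟩
    · exact Or.inr ⟨h3.1, h3.2, fun _ _ => h⟩
  · exact Or.inl ⟨h1, h2, fun h4 h5 => absurd ⟨h4, h5⟩ h3⟩

/-- The number of the tasks dominated by `x`. -/
theorem rank_lt {n : ℕ} {s : ℕ → ℕ → Prop} [∀ x, DecidablePred (fun z => s z x)] (hs : SO s)
    {x y : ℕ} (hx : x < n) (h : s x y) :
    ((range n).filter (fun z => s z x)).card < ((range n).filter (fun z => s z y)).card := by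
  apply card_lt_card
  rw [ssubset_iff_of_subset (fun z hz => by
    rw [mem_filter] at hz ⊢
    exact ⟨hz.1, hs.trans z x y hz.2 h⟩)]
  exact ⟨x, mem_filter.2 ⟨mem_range.2 hx, h⟩, fun h1 => hs.irr x (mem_filter.1 h1).2⟩

/-- Some schedule is monotone for the dominance. -/
theorem exch {n m D : ℕ} {r : ℕ → ℕ → Prop} (hr : SO r) (h : Sd r (range n) m D) :
    ∃ σ : ℕ → ℕ, (∀ u : ℕ, ((range n).filter (fun x => σ x = u)).card ≤ m) ∧
      (∀ x < n, σ x + 1 ≤ D) ∧ (∀ x < n, ∀ y < n, r x y → σ x + 1 ≤ σ y) ∧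
      ∀ x < n, ∀ y < n, Dm n r x y → σ x ≤ σ y := by
  classical
  let Q : (ℕ → ℕ) → Prop := fun σ =>
    (∀ u : ℕ, ((range n).filter (fun x => σ x = u)).card ≤ m) ∧
      (∀ x < n, σ x + 1 ≤ D) ∧ (∀ x < n, ∀ y < n, r x y → σ x + 1 ≤ σ y)
  let L : ℕ → ℕ := fun x => ((range n).filter (fun z => Dm n r z x)).card
  let F : (ℕ → ℕ) → ℕ := fun σ => ∑ z ∈ range n, (D - σ z) * L z
  have hex : ∃ k, ∃ σ, Q σ ∧ F σ = k := by
    obtain ⟨σ, h1, h2, h3⟩ := h
    exact ⟨_, σ, ⟨h1, fun x hx => h2 x (mem_range.2 hx), fun x hx y hy =>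
      h3 x (mem_range.2 hx) y (mem_range.2 hy)⟩, rfl⟩
  obtain ⟨σ, ⟨h1, h2, h3⟩, h4⟩ := Nat.find_spec hex
  refine ⟨σ, h1, h2, h3, fun x hx y hy hxy => ?_⟩
  by_contra hlt
  have hlt' : σ y < σ x := by omega
  have hne : x ≠ y := by
    rintro rfl
    exact lt_irrefl _ hlt'
  have hyx : ¬ r y x := fun hc => hr.irr y (hxy.1 y hy hc)
  let τ : ℕ → ℕ := fun z => σ (Equiv.swap x y z)
  have tx : τ x = σ y := by
    show σ (Equiv.swap x y x) = σ y
    rw [Equiv.swap_apply_left]
  have ty : τ y = σ x := by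
    show σ (Equiv.swap x y y) = σ x
    rw [Equiv.swap_apply_right]
  have tz : ∀ z, z ≠ x → z ≠ y → τ z = σ z := fun z hzx hzy => by
    show σ (Equiv.swap x y z) = σ z
    rw [Equiv.swap_apply_of_ne_of_ne hzx hzy]
  have hQ : Q τ := by
    refine ⟨fun u => ?_, fun z hz => ?_, fun a ha b hb hab => ?_⟩
    · refine (card_le_card_of_injOn (Equiv.swap x y) ?_ (Equiv.injective _).injOn).trans (h1 u)
      intro z hz
      rw [mem_coe, mem_filter, mem_range] at hz
      rw [mem_coe, mem_filter, mem_range]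
      refine ⟨?_, hz.2⟩
      by_cases hzx : z = x
      · rw [hzx, Equiv.swap_apply_left]
        exact hy
      · by_cases hzy : z = y
        · rw [hzy, Equiv.swap_apply_right]
          exact hx
        · rw [Equiv.swap_apply_of_ne_of_ne hzx hzy]
          exact hz.1
    · by_cases hzx : z = x
      · rw [hzx, tx]
        exact h2 y hy
      · by_cases hzy : z = y
        · rw [hzy, ty]
          exact h2 x hx
        · rw [tz z hzx hzy]
          exact h2 z hz
    · have hab' : a ≠ b := by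
        rintro rfl
        exact hr.irr a hab
      by_cases hax : a = x
      · subst hax
        rw [tx]
        by_cases hby : b = y
        · subst hby
          rw [ty]
          omega
        · rw [tz b (Ne.symm hab') hby]
          have := h3 a ha b hb hab
          omega
      · by_cases hay : a = y
        · subst hay
          have hbx : b ≠ x := by
            rintro rfl
            exact hyx hab
          rw [ty, tz b hbx (Ne.symm hab')]
          exact h3 x hx b hb (hxy.2.1 b hb hab)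
        · rw [tz a hax hay]
          by_cases hbx : b = x
          · subst hbx
            rw [tx]
            exact h3 a ha y hy (hxy.1 a ha hab)
          · by_cases hby : b = y
            · subst hby
              rw [ty]
              have := h3 a ha b hb hab
              omega
            · rw [tz b hbx hby]
              exact h3 a ha b hb hab
  have hF : F τ < F σ := by
    have hxm : x ∈ range n := mem_range.2 hx
    have hym : y ∈ (range n).erase x := mem_erase.2 ⟨Ne.symm hne, mem_range.2 hy⟩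
    have e1 : ∀ ρ : ℕ → ℕ, F ρ = (D - ρ x) * L x + ((D - ρ y) * L y +
        ∑ z ∈ ((range n).erase x).erase y, (D - ρ z) * L z) := fun ρ => by
      show ∑ z ∈ range n, (D - ρ z) * L z = _
      rw [← add_sum_erase (range n) (fun z => (D - ρ z) * L z) hxm,
        ← add_sum_erase ((range n).erase x) (fun z => (D - ρ z) * L z) hym]
    have e2 : ∑ z ∈ ((range n).erase x).erase y, (D - τ z) * L z =
        ∑ z ∈ ((range n).erase x).erase y, (D - σ z) * L z := by
      refine sum_congr rfl fun z hz => ?_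
      rw [mem_erase, mem_erase] at hz
      rw [tz z hz.2.1 hz.1]
    rw [e1 τ, e1 σ, e2, tx, ty]
    have h5 : L x < L y := rank_lt (dm_so n r) hx hxy
    have h6 := h2 x hx
    have h7 := h2 y hy
    obtain ⟨a, ha⟩ : ∃ a, D - σ x = a := ⟨_, rfl⟩
    obtain ⟨k, hk⟩ : ∃ k, D - σ y = a + (k + 1) := ⟨D - σ y - a - 1, by omega⟩
    obtain ⟨l, hl⟩ : ∃ l, L y = L x + (l + 1) := ⟨L y - L x - 1, by omega⟩
    rw [ha, hk, hl]
    nlinarith [Nat.zero_le (k * l), Nat.zero_le k, Nat.zero_le l]
  have h8 := Nat.find_min' hex ⟨τ, hQ, rfl⟩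
  omega

end Pool.Agent.P49c
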