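import Pool.Agent.Lib.P49c.Defs
import Pool.Agent.Lib.P49q.PFq
import Pool.Agent.Lib.P49q.PLab

/-!
# Module P49c.PAcc: polynomial time

PROOF SKETCH. As `P49q/PLab.lean`, `P49q/PFq.lean`, `P49k/POk.lean`: `poly_dg`, `poly_exc`, `poly_fac` (quantifiers
`∃ j < w`, `∀ j < w` with a constant bound), `p_ex`, `p_fa`, `n_card` (`cnt`), `PolyN.pow`, `n_div`, `n_mod`, `poly_rT`;
`poly_tab'` for `Pt`.
-/

set_option autoImplicit false

namespace Pool.Agent.P49c

open Finset Pool.Agent.P99b9fe Pool.Agent.Lib.PolyTime Pool.Agent.Lib.Pa7c826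
open Pool.Agent.Lib.P8e91ed.PT Pool.Agent.P49d Pool.Agent.P49k Pool.Agent.P49q

variable {α : Type} {D : α → Prop} {ctx : List (α → List Bool)} {n d : α → ℕ}
  {t : α → List Bool}

namespace PAccAux

open Pool.Agent.P49q.PLabAux

variable {x y c e u s z : α → ℕ}

theorem poly_cnt {P : α → ℕ → Prop} (hn : PolyN D ctx n)
    (hP : PolyP (Dx D n) (cx ctx) (fun p => P p.1 p.2)) :
    PolyN D ctx (fun a => cnt (n a) (P a)) := by
  classical
  exact n_card (n := n) (P := P) hn hP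

theorem poly_co (hn : PolyN D ctx n) (ht : PolyC D ctx t) (hx : PolyN D ctx x) :
    PolyP D ctx (fun a => Co (n a) (rT (n a) (t a)) (x a)) := by
  refine PolyP.and ?_ ?_
  · exact p_ex (P := fun a y => rT (n a) (t a) y (x a)) hn
      (poly_rT (nU hn) (cU ht) nL (nU hx))
  · exact p_ex (P := fun a y => rT (n a) (t a) (x a) y) hn
      (poly_rT (nU hn) (cU ht) (nU hx) nL)

theorem poly_so (hn : PolyN D ctx n) (ht : PolyC D ctx t) (hx : PolyN D ctx x) :
    PolyP D ctx (fun a => So (n a) (rT (n a) (t a)) (x a)) :=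
  p_fa (P := fun a y => ¬ rT (n a) (t a) y (x a)) hn
    (poly_rT (nU hn) (cU ht) nL (nU hx)).not

theorem poly_si (hn : PolyN D ctx n) (ht : PolyC D ctx t) (hx : PolyN D ctx x) :
    PolyP D ctx (fun a => Si (n a) (rT (n a) (t a)) (x a)) := by
  refine PolyP.and ?_ ?_
  · exact p_ex (P := fun a y => rT (n a) (t a) y (x a)) hn
      (poly_rT (nU hn) (cU ht) nL (nU hx))
  · exact p_fa (P := fun a y => ¬ rT (n a) (t a) (x a) y) hn
      (poly_rT (nU hn) (cU ht) (nU hx) nL).not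

theorem poly_dm (hn : PolyN D ctx n) (ht : PolyC D ctx t) (hx : PolyN D ctx x)
    (hy : PolyN D ctx y) :
    PolyP D ctx (fun a => Dm (n a) (rT (n a) (t a)) (x a) (y a)) := by
  have n1 : PolyN (Dx D n) (cx ctx) (fun p => n p.1) := nU hn
  have t1 : PolyC (Dx D n) (cx ctx) (fun p => t p.1) := cU ht
  have x1 : PolyN (Dx D n) (cx ctx) (fun p => x p.1) := nU hx
  have y1 : PolyN (Dx D n) (cx ctx) (fun p => y p.1) := nU hy
  have h1 : PolyP D ctx (fun a => ∀ z < n a, rT (n a) (t a) z (x a) → rT (n a) (t a) z (y a)) :=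
    p_fa (P := fun a z => rT (n a) (t a) z (x a) → rT (n a) (t a) z (y a)) hn
      ((poly_rT n1 t1 nL x1).imp (poly_rT n1 t1 nL y1))
  have h2 : PolyP D ctx (fun a => ∀ z < n a, rT (n a) (t a) (y a) z → rT (n a) (t a) (x a) z) :=
    p_fa (P := fun a z => rT (n a) (t a) (y a) z → rT (n a) (t a) (x a) z) hn
      ((poly_rT n1 t1 y1 nL).imp (poly_rT n1 t1 x1 nL))
  have h3 : PolyP D ctx (fun a => ∀ z < n a, rT (n a) (t a) z (y a) → rT (n a) (t a) z (x a)) :=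
    p_fa (P := fun a z => rT (n a) (t a) z (y a) → rT (n a) (t a) z (x a)) hn
      ((poly_rT n1 t1 nL y1).imp (poly_rT n1 t1 nL x1))
  have h4 : PolyP D ctx (fun a => ∀ z < n a, rT (n a) (t a) (x a) z → rT (n a) (t a) (y a) z) :=
    p_fa (P := fun a z => rT (n a) (t a) (x a) z → rT (n a) (t a) (y a) z) hn
      ((poly_rT n1 t1 x1 nL).imp (poly_rT n1 t1 y1 nL))
  exact h1.and (h2.and (h3.imp (h4.imp (PolyP.lt hx hy))))

theorem poly_il (w : ℕ) (hn : PolyN D ctx n) (ht : PolyC D ctx t) (hc : PolyN D ctx c)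
    (hx : PolyN D ctx x) :
    PolyP D ctx (fun a => Il (n a) (rT (n a) (t a)) w (c a) (x a)) := by
  refine (PolyP.lt hx hn).and ((poly_co hn ht hx).and ?_)
  exact poly_exc w (P := fun a j => dg (n a) (c a) j < n a ∧
    (x a = dg (n a) (c a) j ∨ Dm (n a) (rT (n a) (t a)) (x a) (dg (n a) (c a) j))) fun j _ =>
      (PolyP.lt (poly_dg j hn hc) hn).and ((PolyP.eq hx (poly_dg j hn hc)).or
        (poly_dm hn ht hx (poly_dg j hn hc)))

theorem poly_cil (w : ℕ) (hn : PolyN D ctx n) (ht : PolyC D ctx t) (hc : PolyN D ctx c) :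
    PolyN D ctx (fun a => cnt (n a) (Il (n a) (rT (n a) (t a)) w (c a))) :=
  poly_cnt (P := fun a => Il (n a) (rT (n a) (t a)) w (c a)) hn
    (poly_il w (nU hn) (cU ht) (nU hc) nL)

theorem poly_cco (hn : PolyN D ctx n) (ht : PolyC D ctx t) :
    PolyN D ctx (fun a => cnt (n a) (Co (n a) (rT (n a) (t a)))) :=
  poly_cnt (P := fun a => Co (n a) (rT (n a) (t a))) hn (poly_co (nU hn) (cU ht) nL)

/-- `Sl` for arguments which all depend on the input; only `w` is constant. -/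
theorem poly_sl (w : ℕ) {m : α → ℕ} (hn : PolyN D ctx n) (ht : PolyC D ctx t)
    (hm : PolyN D ctx m) (hd : PolyN D ctx d) (hu : PolyN D ctx u) (hc : PolyN D ctx c)
    (he : PolyN D ctx e) :
    PolyP D ctx (fun a => Sl (n a) (rT (n a) (t a)) w (m a) (d a) (u a) (c a) (e a)) := by
  have n1 : PolyN (Dx D n) (cx ctx) (fun p => n p.1) := nU hn
  have t1 : PolyC (Dx D n) (cx ctx) (fun p => t p.1) := cU ht
  have c1 : PolyN (Dx D n) (cx ctx) (fun p => c p.1) := nU hc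
  have e1 : PolyN (Dx D n) (cx ctx) (fun p => e p.1) := nU he
  have x1 : PolyN (Dx D n) (cx ctx) (fun p => p.2) := nL
  have n2 : PolyN (Dx (Dx D n) (fun p => n p.1)) (cx (cx ctx)) (fun p => n p.1.1) := nU n1
  have t2 : PolyC (Dx (Dx D n) (fun p => n p.1)) (cx (cx ctx)) (fun p => t p.1.1) := cU t1
  have c2 : PolyN (Dx (Dx D n) (fun p => n p.1)) (cx (cx ctx)) (fun p => c p.1.1) := nU c1
  have e2 : PolyN (Dx (Dx D n) (fun p => n p.1)) (cx (cx ctx)) (fun p => e p.1.1) := nU e1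
  have x2 : PolyN (Dx (Dx D n) (fun p => n p.1)) (cx (cx ctx)) (fun p => p.1.2) := nU x1
  have y2 : PolyN (Dx (Dx D n) (fun p => n p.1)) (cx (cx ctx)) (fun p => p.2) := nL
  have h1 : PolyP D ctx (fun a => ∀ x < n a, Il (n a) (rT (n a) (t a)) w (c a) x →
      Il (n a) (rT (n a) (t a)) w (e a) x) :=
    p_fa (P := fun a x => Il (n a) (rT (n a) (t a)) w (c a) x →
      Il (n a) (rT (n a) (t a)) w (e a) x) hn
      ((poly_il w n1 t1 c1 x1).imp (poly_il w n1 t1 e1 x1))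
  have h2 : PolyP D ctx (fun a => ∀ x < n a, Il (n a) (rT (n a) (t a)) w (e a) x →
      ¬ Il (n a) (rT (n a) (t a)) w (c a) x → ∀ y < n a, Co (n a) (rT (n a) (t a)) y →
      rT (n a) (t a) y x → Il (n a) (rT (n a) (t a)) w (c a) y) := by
    refine p_fa (P := fun a x => Il (n a) (rT (n a) (t a)) w (e a) x →
      ¬ Il (n a) (rT (n a) (t a)) w (c a) x → ∀ y < n a, Co (n a) (rT (n a) (t a)) y →
      rT (n a) (t a) y x → Il (n a) (rT (n a) (t a)) w (c a) y) hn ?_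
    refine (poly_il w n1 t1 e1 x1).imp ((poly_il w n1 t1 c1 x1).not.imp ?_)
    exact p_fa (n := fun p : α × ℕ => n p.1) (P := fun p y => Co (n p.1) (rT (n p.1) (t p.1)) y →
      rT (n p.1) (t p.1) y p.2 → Il (n p.1) (rT (n p.1) (t p.1)) w (c p.1) y) n1
      ((poly_co n2 t2 y2).imp ((poly_rT n2 t2 y2 x2).imp (poly_il w n2 t2 c2 y2)))
  have h4 : PolyN D ctx (fun a => cnt (n a) (fun b => So (n a) (rT (n a) (t a)) b ∧
      ∃ q < n a, Il (n a) (rT (n a) (t a)) w (e a) q ∧ rT (n a) (t a) b q)) := by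
    refine poly_cnt (P := fun a b => So (n a) (rT (n a) (t a)) b ∧
      ∃ q < n a, Il (n a) (rT (n a) (t a)) w (e a) q ∧ rT (n a) (t a) b q) hn ?_
    refine (poly_so n1 t1 x1).and ?_
    exact p_ex (n := fun p : α × ℕ => n p.1)
      (P := fun p q => Il (n p.1) (rT (n p.1) (t p.1)) w (e p.1) q ∧ rT (n p.1) (t p.1) p.2 q) n1
      ((poly_il w n2 t2 e2 y2).and (poly_rT n2 t2 x2 y2))
  have h5 : PolyN D ctx (fun a => cnt (n a) (fun b => Si (n a) (rT (n a) (t a)) b ∧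
      ∃ q < n a, Co (n a) (rT (n a) (t a)) q ∧ ¬ Il (n a) (rT (n a) (t a)) w (c a) q ∧
        rT (n a) (t a) q b)) := by
    refine poly_cnt (P := fun a b => Si (n a) (rT (n a) (t a)) b ∧
      ∃ q < n a, Co (n a) (rT (n a) (t a)) q ∧ ¬ Il (n a) (rT (n a) (t a)) w (c a) q ∧
        rT (n a) (t a) q b) hn ?_
    refine (poly_si n1 t1 x1).and ?_
    exact p_ex (n := fun p : α × ℕ => n p.1)
      (P := fun p q => Co (n p.1) (rT (n p.1) (t p.1)) q ∧
        ¬ Il (n p.1) (rT (n p.1) (t p.1)) w (c p.1) q ∧ rT (n p.1) (t p.1) q p.2) n1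
      ((poly_co n2 t2 y2).and ((poly_il w n2 t2 c2 y2).not.and (poly_rT n2 t2 y2 x2)))
  have ce := poly_cil w hn ht he
  have cc := poly_cil w hn ht hc
  refine h1.and (h2.and ((PolyP.le ce (cc.add hm)).and
    ((PolyP.le (h4.add cc) (hm.mul hu)).and
      (PolyP.le (h5.add (poly_cco hn ht)) ?_))))
  exact (hm.mul (Pool.Agent.Lib.Pa7c826.PolyN.sub hd hu.succ)).add ce

theorem poly_xs (m : ℕ) (hn : PolyN D ctx n) (hx : PolyN D ctx x) (hs : PolyN D ctx s) :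
    PolyP D ctx (fun a => Xs (n a) m (x a) (s a)) := by
  refine (PolyP.lt hs hn).and ?_
  exact poly_exc m (P := fun a j => dg (n a) (x a) j = s a) fun j _ =>
    PolyP.eq (poly_dg j hn hx) hs

theorem poly_cxs (m : ℕ) (hn : PolyN D ctx n) (hx : PolyN D ctx x) :
    PolyN D ctx (fun a => cnt (n a) (Xs (n a) m (x a))) :=
  poly_cnt (P := fun a => Xs (n a) m (x a)) hn (poly_xs m (nU hn) (nU hx) nL)

theorem poly_mx (w m : ℕ) (hn : PolyN D ctx n) (ht : PolyC D ctx t) (hd : PolyN D ctx d)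
    (hu : PolyN D ctx u) (hc : PolyN D ctx c) (he : PolyN D ctx e) (hx : PolyN D ctx x)
    (hy : PolyN D ctx y) :
    PolyP D ctx (fun a => Mx (n a) (rT (n a) (t a)) w m (d a) (u a) (c a) (e a) (x a) (y a)) := by
  have n1 : PolyN (Dx D n) (cx ctx) (fun p => n p.1) := nU hn
  have t1 : PolyC (Dx D n) (cx ctx) (fun p => t p.1) := cU ht
  have c1 : PolyN (Dx D n) (cx ctx) (fun p => c p.1) := nU hc
  have e1 : PolyN (Dx D n) (cx ctx) (fun p => e p.1) := nU he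
  have x1 : PolyN (Dx D n) (cx ctx) (fun p => x p.1) := nU hx
  have y1 : PolyN (Dx D n) (cx ctx) (fun p => y p.1) := nU hy
  have a1 : PolyN (Dx D n) (cx ctx) (fun p => p.2) := nL
  have n2 : PolyN (Dx (Dx D n) (fun p => n p.1)) (cx (cx ctx)) (fun p => n p.1.1) := nU n1
  have t2 : PolyC (Dx (Dx D n) (fun p => n p.1)) (cx (cx ctx)) (fun p => t p.1.1) := cU t1
  have c2 : PolyN (Dx (Dx D n) (fun p => n p.1)) (cx (cx ctx)) (fun p => c p.1.1) := nU c1
  have e2 : PolyN (Dx (Dx D n) (fun p => n p.1)) (cx (cx ctx)) (fun p => e p.1.1) := nU e1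
  have x2 : PolyN (Dx (Dx D n) (fun p => n p.1)) (cx (cx ctx)) (fun p => x p.1.1) := nU x1
  have y2 : PolyN (Dx (Dx D n) (fun p => n p.1)) (cx (cx ctx)) (fun p => y p.1.1) := nU y1
  have a2 : PolyN (Dx (Dx D n) (fun p => n p.1)) (cx (cx ctx)) (fun p => p.1.2) := nU a1
  have b2 : PolyN (Dx (Dx D n) (fun p => n p.1)) (cx (cx ctx)) (fun p => p.2) := nL
  have h1 : PolyP D ctx (fun a => ∀ b < n a, Xs (n a) m (x a) b →
      So (n a) (rT (n a) (t a)) b ∧ ∀ q < n a, Il (n a) (rT (n a) (t a)) w (e a) q →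
        ¬ rT (n a) (t a) b q) := by
    refine p_fa (P := fun a b => Xs (n a) m (x a) b →
      So (n a) (rT (n a) (t a)) b ∧ ∀ q < n a, Il (n a) (rT (n a) (t a)) w (e a) q →
        ¬ rT (n a) (t a) b q) hn ?_
    refine (poly_xs m n1 x1 a1).imp ((poly_so n1 t1 a1).and ?_)
    exact p_fa (n := fun p : α × ℕ => n p.1)
      (P := fun p q => Il (n p.1) (rT (n p.1) (t p.1)) w (e p.1) q →
        ¬ rT (n p.1) (t p.1) p.2 q) n1
      ((poly_il w n2 t2 e2 b2).imp (poly_rT n2 t2 a2 b2).not)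
  have h2 : PolyP D ctx (fun a => ∀ b < n a, Xs (n a) m (y a) b →
      Si (n a) (rT (n a) (t a)) b ∧ ∀ q < n a, Co (n a) (rT (n a) (t a)) q →
        rT (n a) (t a) q b → Il (n a) (rT (n a) (t a)) w (c a) q) := by
    refine p_fa (P := fun a b => Xs (n a) m (y a) b →
      Si (n a) (rT (n a) (t a)) b ∧ ∀ q < n a, Co (n a) (rT (n a) (t a)) q →
        rT (n a) (t a) q b → Il (n a) (rT (n a) (t a)) w (c a) q) hn ?_
    refine (poly_xs m n1 y1 a1).imp ((poly_si n1 t1 a1).and ?_)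
    exact p_fa (n := fun p : α × ℕ => n p.1)
      (P := fun p q => Co (n p.1) (rT (n p.1) (t p.1)) q → rT (n p.1) (t p.1) q p.2 →
        Il (n p.1) (rT (n p.1) (t p.1)) w (c p.1) q) n1
      ((poly_co n2 t2 b2).imp ((poly_rT n2 t2 b2 a2).imp (poly_il w n2 t2 c2 b2)))
  have h3 : PolyP D ctx (fun a => ∀ a' < n a, ∀ b < n a, Xs (n a) m (x a) a' →
      Xs (n a) m (y a) b → ¬ rT (n a) (t a) a' b) := by
    refine p_fa (P := fun a a' => ∀ b < n a, Xs (n a) m (x a) a' →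
      Xs (n a) m (y a) b → ¬ rT (n a) (t a) a' b) hn ?_
    exact p_fa (n := fun p : α × ℕ => n p.1)
      (P := fun p b => Xs (n p.1) m (x p.1) p.2 → Xs (n p.1) m (y p.1) b →
        ¬ rT (n p.1) (t p.1) p.2 b) n1
      ((poly_xs m n2 x2 a2).imp ((poly_xs m n2 y2 b2).imp (poly_rT n2 t2 a2 b2).not))
  have cso : PolyN D ctx (fun a => cnt (n a) (So (n a) (rT (n a) (t a)))) :=
    poly_cnt (P := fun a => So (n a) (rT (n a) (t a))) hn (poly_so n1 t1 a1)
  have csi : PolyN D ctx (fun a => cnt (n a) (Si (n a) (rT (n a) (t a)))) :=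
    poly_cnt (P := fun a => Si (n a) (rT (n a) (t a))) hn (poly_si n1 t1 a1)
  have ce := poly_cil w hn ht he
  have cc := poly_cil w hn ht hc
  have cx' := poly_cxs m hn hx
  have cy' := poly_cxs m hn hy
  refine h1.and (h2.and (h3.and
    ((PolyP.le (cso.add cc) (((PolyN.const m).mul hu).add cx')).and
      ((PolyP.le (csi.add (poly_cco hn ht)) ?_).and
        (PolyP.le ((cx'.add cy').add ce) (cc.add (PolyN.const m)))))))
  exact (((PolyN.const m).mul (Pool.Agent.Lib.Pa7c826.PolyN.sub hd hu.succ)).add ce).add cy'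

theorem poly_pR (w m : ℕ) {T : α → List Bool} (hn : PolyN D ctx n)
    (ht : PolyC D ctx t) (hd : PolyN D ctx d) (hs : PolyN D ctx s) (hx : PolyN D ctx x)
    (hy : PolyN D ctx y) (hT : PolyC D ctx T) (hz : PolyN D ctx z) :
    PolyP D ctx (fun a => pR (n a) (rT (n a) (t a)) w m (d a) (s a) (x a) (y a)
      (tb (T a)) (z a)) := by
  have hN : PolyN D ctx (fun a => (n a + 1) ^ w) := PolyN.pow hn.succ w
  have dv : PolyN D ctx (fun a => z a / (n a + 1) ^ w) := n_div hz hN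
  have md : PolyN D ctx (fun a => z a % (n a + 1) ^ w) := n_mod hz hN
  have dv' : PolyN D ctx (fun a => z a / (n a + 1) ^ w - 1) :=
    Pool.Agent.Lib.Pa7c826.PolyN.sub dv (PolyN.const 1)
  have h1 : PolyP D ctx (fun a => z a / (n a + 1) ^ w = 0 ∧
      ∀ q < n a, ¬ Il (n a) (rT (n a) (t a)) w (z a % (n a + 1) ^ w) q) :=
    (PolyP.eq dv (PolyN.const 0)).and
      (p_fa (P := fun a q => ¬ Il (n a) (rT (n a) (t a)) w (z a % (n a + 1) ^ w) q) hn
        (poly_il w (nU hn) (cU ht) (nU md) nL).not)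
  have h2 : PolyP D ctx (fun a => 0 < z a / (n a + 1) ^ w ∧ ∃ c' < (n a + 1) ^ w,
      tb (T a) ((z a / (n a + 1) ^ w - 1) * (n a + 1) ^ w + c') ∧
      Sl (n a) (rT (n a) (t a)) w m (d a) (z a / (n a + 1) ^ w - 1) c' (z a % (n a + 1) ^ w) ∧
      (z a / (n a + 1) ^ w - 1 = s a →
        Mx (n a) (rT (n a) (t a)) w m (d a) (z a / (n a + 1) ^ w - 1) c' (z a % (n a + 1) ^ w)
          (x a) (y a))) := by
    refine (PolyP.lt (PolyN.const 0) dv).and ?_
    refine p_ex (n := fun a => (n a + 1) ^ w) (P := fun a c' =>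
      tb (T a) ((z a / (n a + 1) ^ w - 1) * (n a + 1) ^ w + c') ∧
      Sl (n a) (rT (n a) (t a)) w m (d a) (z a / (n a + 1) ^ w - 1) c' (z a % (n a + 1) ^ w) ∧
      (z a / (n a + 1) ^ w - 1 = s a →
        Mx (n a) (rT (n a) (t a)) w m (d a) (z a / (n a + 1) ^ w - 1) c' (z a % (n a + 1) ^ w)
          (x a) (y a))) hN ?_
    have n1 := nU (n := fun a => (n a + 1) ^ w) hn
    have t1 := cU (n := fun a => (n a + 1) ^ w) ht
    have T1 := cU (n := fun a => (n a + 1) ^ w) hT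
    have d1 := nU (n := fun a => (n a + 1) ^ w) hd
    have s1 := nU (n := fun a => (n a + 1) ^ w) hs
    have x1 := nU (n := fun a => (n a + 1) ^ w) hx
    have y1 := nU (n := fun a => (n a + 1) ^ w) hy
    have N1 := nU (n := fun a => (n a + 1) ^ w) hN
    have v1 := nU (n := fun a => (n a + 1) ^ w) dv'
    have m1 := nU (n := fun a => (n a + 1) ^ w) md
    have c1 : PolyN (Dx D (fun a => (n a + 1) ^ w)) (cx ctx) (fun p => p.2) := nL
    exact (poly_tb T1 ((v1.mul N1).add c1)).and ((poly_sl w n1 t1 (PolyN.const m) d1 v1 c1 m1).and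
      ((PolyP.eq v1 s1).imp (poly_mx w m n1 t1 d1 v1 c1 m1 x1 y1)))
  exact h1.or h2

theorem poly_pt (w m : ℕ) (hn : PolyN D ctx n) (ht : PolyC D ctx t) (hd : PolyN D ctx d)
    (hs : PolyN D ctx s) (hx : PolyN D ctx x) (hy : PolyN D ctx y) (hu : PolyN D ctx u)
    (hc : PolyN D ctx c) :
    PolyP D ctx (fun a => Pt (n a) (rT (n a) (t a)) w m (d a) (s a) (x a) (y a) (u a)
      (c a)) := by
  have hN : PolyN D ctx (fun a => (n a + 1) ^ w) := PolyN.pow hn.succ w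
  obtain ⟨T, hT, hTs⟩ := poly_tab' (D := D) (ctx := ctx)
    (R := fun a => pR (n a) (rT (n a) (t a)) w m (d a) (s a) (x a) (y a))
    (S := fun a => (n a + 1) * (n a + 1) ^ w) (hn.succ.mul hN)
    (fun T z D' ctx' hD hctx hT hz =>
      poly_pR (n := fun p : (α × ℕ) × ℕ => n p.1.1) (t := fun p => t p.1.1)
        (d := fun p => d p.1.1) (s := fun p => s p.1.1) (x := fun p => x p.1.1)
        (y := fun p => y p.1.1) (T := fun p => T p.1) w m
        (poly_moveC (fun p : (α × ℕ) × ℕ => p.1.1) hD hctx hn)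
        (poly_moveC (fun p : (α × ℕ) × ℕ => p.1.1) hD hctx ht)
        (poly_moveC (fun p : (α × ℕ) × ℕ => p.1.1) hD hctx hd)
        (poly_moveC (fun p : (α × ℕ) × ℕ => p.1.1) hD hctx hs)
        (poly_moveC (fun p : (α × ℕ) × ℕ => p.1.1) hD hctx hx)
        (poly_moveC (fun p : (α × ℕ) × ℕ => p.1.1) hD hctx hy) hT hz)
  refine (poly_tb hT ((hu.mul hN).add hc)).congr (fun a ha => ?_)
  rw [hTs a ha]
  exact Iff.rfl

theorem poly_last (w m : ℕ) (hn : PolyN D ctx n) (ht : PolyC D ctx t) (hd : PolyN D ctx d)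
    (hs : PolyN D ctx s) (hx : PolyN D ctx x) (hy : PolyN D ctx y) (hc : PolyN D ctx c) :
    PolyP D ctx (fun a => (∀ q < n a, Co (n a) (rT (n a) (t a)) q →
      Il (n a) (rT (n a) (t a)) w (c a) q) ∧
      Pt (n a) (rT (n a) (t a)) w m (d a) (s a) (x a) (y a) (d a) (c a)) := by
  refine PolyP.and ?_ (poly_pt w m hn ht hd hs hx hy hd hc)
  exact p_fa (P := fun a q => Co (n a) (rT (n a) (t a)) q →
    Il (n a) (rT (n a) (t a)) w (c a) q) hn
    ((poly_co (nU hn) (cU ht) nL).imp (poly_il w (nU hn) (cU ht) (nU hc) nL))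

end PAccAux

open PAccAux

theorem poly_accC (w m : ℕ) (hn : PolyN D ctx n) (ht : PolyC D ctx t) (hd : PolyN D ctx d) :
    PolyP D ctx (fun a => AccC (n a) (rT (n a) (t a)) w m (d a)) := by
  refine p_ex (n := d) (P := fun a t' => ∃ x < (n a + 1) ^ m, ∃ y < (n a + 1) ^ m,
    ∃ c < (n a + 1) ^ w, (∀ q < n a, Co (n a) (rT (n a) (t a)) q →
      Il (n a) (rT (n a) (t a)) w c q) ∧
      Pt (n a) (rT (n a) (t a)) w m (d a) t' x y (d a) c) hd ?_
  have n1 := nU (n := d) hn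
  have t1 := cU (n := d) ht
  have d1 := nU (n := d) hd
  have s1 : PolyN (Dx D d) (cx ctx) (fun p => p.2) := nL
  refine p_ex (n := fun p : α × ℕ => (n p.1 + 1) ^ m) (P := fun p x =>
    ∃ y < (n p.1 + 1) ^ m, ∃ c < (n p.1 + 1) ^ w,
      (∀ q < n p.1, Co (n p.1) (rT (n p.1) (t p.1)) q →
      Il (n p.1) (rT (n p.1) (t p.1)) w c q) ∧
      Pt (n p.1) (rT (n p.1) (t p.1)) w m (d p.1) p.2 x y (d p.1) c) (PolyN.pow n1.succ m) ?_
  have n2 := nU (n := fun p : α × ℕ => (n p.1 + 1) ^ m) n1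
  have t2 := cU (n := fun p : α × ℕ => (n p.1 + 1) ^ m) t1
  have d2 := nU (n := fun p : α × ℕ => (n p.1 + 1) ^ m) d1
  have s2 := nU (n := fun p : α × ℕ => (n p.1 + 1) ^ m) s1
  have x2 := nL (D := Dx D d) (ctx := cx ctx) (n := fun p : α × ℕ => (n p.1 + 1) ^ m)
  refine p_ex (n := fun p : (α × ℕ) × ℕ => (n p.1.1 + 1) ^ m) (P := fun p y =>
    ∃ c < (n p.1.1 + 1) ^ w,
      (∀ q < n p.1.1, Co (n p.1.1) (rT (n p.1.1) (t p.1.1)) q →
      Il (n p.1.1) (rT (n p.1.1) (t p.1.1)) w c q) ∧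
      Pt (n p.1.1) (rT (n p.1.1) (t p.1.1)) w m (d p.1.1) p.1.2 p.2 y (d p.1.1) c)
    (PolyN.pow n2.succ m) ?_
  have n3 := nU (n := fun p : (α × ℕ) × ℕ => (n p.1.1 + 1) ^ m) n2
  have t3 := cU (n := fun p : (α × ℕ) × ℕ => (n p.1.1 + 1) ^ m) t2
  have d3 := nU (n := fun p : (α × ℕ) × ℕ => (n p.1.1 + 1) ^ m) d2
  have s3 := nU (n := fun p : (α × ℕ) × ℕ => (n p.1.1 + 1) ^ m) s2
  have x3 := nU (n := fun p : (α × ℕ) × ℕ => (n p.1.1 + 1) ^ m) x2
  have y3 := nL (D := Dx (Dx D d) (fun p : α × ℕ => (n p.1 + 1) ^ m)) (ctx := cx (cx ctx))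
    (n := fun p : (α × ℕ) × ℕ => (n p.1.1 + 1) ^ m)
  refine p_ex (n := fun p : ((α × ℕ) × ℕ) × ℕ => (n p.1.1.1 + 1) ^ w) (P := fun p c =>
      (∀ q < n p.1.1.1, Co (n p.1.1.1) (rT (n p.1.1.1) (t p.1.1.1)) q →
      Il (n p.1.1.1) (rT (n p.1.1.1) (t p.1.1.1)) w c q) ∧
      Pt (n p.1.1.1) (rT (n p.1.1.1) (t p.1.1.1)) w m (d p.1.1.1) p.1.1.2 p.1.2 p.2
        (d p.1.1.1) c)
    (PolyN.pow n3.succ w) ?_
  have n4 := nU (n := fun p : ((α × ℕ) × ℕ) × ℕ => (n p.1.1.1 + 1) ^ w) n3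
  have t4 := cU (n := fun p : ((α × ℕ) × ℕ) × ℕ => (n p.1.1.1 + 1) ^ w) t3
  have d4 := nU (n := fun p : ((α × ℕ) × ℕ) × ℕ => (n p.1.1.1 + 1) ^ w) d3
  have s4 := nU (n := fun p : ((α × ℕ) × ℕ) × ℕ => (n p.1.1.1 + 1) ^ w) s3
  have x4 := nU (n := fun p : ((α × ℕ) × ℕ) × ℕ => (n p.1.1.1 + 1) ^ w) x3
  have y4 := nU (n := fun p : ((α × ℕ) × ℕ) × ℕ => (n p.1.1.1 + 1) ^ w) y3
  exact poly_last w m n4 t4 d4 s4 x4 y4 nL

end Pool.Agent.P49c
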