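import Mathlib

/-!
# Module P49c.Pack: tasks with deadlines in slots with capacities

Both statements follow from the marriage theorem: the places of the slot `s` are the pairs `(s, k)`
with `k < cap s`, and the places allowed for a set of tasks are those allowed for the task with the
largest deadline (smallest release time) in it.
-/

set_option autoImplicit false

namespace Pool.Agent.P49c

open Finset

/-- The marriage theorem for slots with capacities: the slots allowed for `a` are those in `A a`,
and for every nonempty set of tasks there is one of them whose slots have enough places. -/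
theorem pack_aux (cap : ℕ → ℕ) (S : Finset ℕ) (A : ℕ → Finset ℕ)
    (h : ∀ R ⊆ S, R.Nonempty → ∃ a ∈ R, R.card ≤ ∑ s ∈ A a, cap s) :
    ∃ σ : ℕ → ℕ, (∀ a ∈ S, σ a ∈ A a) ∧ ∀ s, (S.filter (fun a => σ a = s)).card ≤ cap s := by
  classical
  have hall : ∀ R : Finset {a // a ∈ S},
      R.card ≤ (R.biUnion fun a => (A a.1).sigma fun s => range (cap s)).card := by
    intro R
    rcases R.eq_empty_or_nonempty with hR | hR
    · rw [hR, card_empty]
      exact Nat.zero_le _
    · have hsub : R.map (Function.Embedding.subtype _) ⊆ S := by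
        intro x hx
        rw [mem_map] at hx
        obtain ⟨y, _, rfl⟩ := hx
        exact y.2
      obtain ⟨a, ha, hc⟩ := h _ hsub (hR.map)
      rw [mem_map] at ha
      obtain ⟨y, hy, rfl⟩ := ha
      rw [card_map] at hc
      have h1 : ((A y.1).sigma fun s => range (cap s)).card = ∑ s ∈ A y.1, cap s := by
        rw [card_sigma]
        exact sum_congr rfl fun s _ => card_range _
      refine hc.trans ?_
      change ∑ s ∈ A y.1, cap s ≤ _
      rw [← h1]
      exact card_le_card (subset_biUnion_of_mem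
        (fun a : {a // a ∈ S} => (A a.1).sigma fun s => range (cap s)) hy)
  obtain ⟨f, hf, hm⟩ := (all_card_le_biUnion_card_iff_exists_injective
    (fun a : {a // a ∈ S} => (A a.1).sigma fun s => range (cap s))).1 hall
  refine ⟨fun a => if h : a ∈ S then (f ⟨a, h⟩).1 else 0, fun a ha => ?_, fun s => ?_⟩
  · simp only [dif_pos ha]
    exact (mem_sigma.1 (hm ⟨a, ha⟩)).1
  · have h2 : (S.filter (fun a => (if h : a ∈ S then (f ⟨a, h⟩).1 else 0) = s)).card ≤
        (range (cap s)).card := by
      refine card_le_card_of_injOn (fun a => if h : a ∈ S then (f ⟨a, h⟩).2 else 0) ?_ ?_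
      · intro a ha
        have ha' := mem_filter.1 (mem_coe.1 ha)
        have h3 := ha'.2
        rw [dif_pos ha'.1] at h3
        have h4 := (mem_sigma.1 (hm ⟨a, ha'.1⟩)).2
        rw [h3] at h4
        rw [mem_coe]
        simp only [dif_pos ha'.1]
        exact h4
      · intro a ha a' haa hEq
        have ha' := mem_filter.1 (mem_coe.1 ha)
        have ha'' := mem_filter.1 (mem_coe.1 haa)
        have h3 := ha'.2
        have h3' := ha''.2
        rw [dif_pos ha'.1] at h3
        rw [dif_pos ha''.1] at h3'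
        simp only [dif_pos ha'.1, dif_pos ha''.1] at hEq
        have h5 : f ⟨a, ha'.1⟩ = f ⟨a', ha''.1⟩ := by
          refine Sigma.ext (h3.trans h3'.symm) (heq_of_eq hEq)
        exact congrArg Subtype.val (hf h5)
    rwa [card_range] at h2

/-- Tasks `a` which have to be done before the slot `e a`. -/
theorem pack (cap : ℕ → ℕ) (t : ℕ) (S : Finset ℕ) (e : ℕ → ℕ) (he : ∀ a ∈ S, e a ≤ t)
    (h : ∀ v ≤ t, (S.filter (fun a => e a ≤ v)).card ≤ ∑ s ∈ range v, cap s) :
    ∃ σ : ℕ → ℕ, (∀ a ∈ S, σ a < e a) ∧ ∀ s, (S.filter (fun a => σ a = s)).card ≤ cap s := by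
  obtain ⟨σ, h1, h2⟩ := pack_aux cap S (fun a => range (e a)) (by
    intro R hR hne
    obtain ⟨a, ha, hmax⟩ := exists_max_image R e hne
    refine ⟨a, ha, (card_le_card ?_).trans (h (e a) (he a (hR ha)))⟩
    intro x hx
    exact mem_filter.2 ⟨hR hx, hmax x hx⟩)
  exact ⟨σ, fun a ha => mem_range.1 (h1 a ha), h2⟩

/-- Tasks `a` which have to be done in the slot `b a` or later, and before the slot `D`. -/
theorem pack_end (cap : ℕ → ℕ) (D t : ℕ) (htD : t ≤ D) (S : Finset ℕ) (b : ℕ → ℕ)
    (hb : ∀ a ∈ S, t ≤ b a)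
    (h : ∀ v ≤ D, t ≤ v → (S.filter (fun a => v ≤ b a)).card ≤ ∑ s ∈ Ico v D, cap s) :
    ∃ σ : ℕ → ℕ, (∀ a ∈ S, b a ≤ σ a ∧ σ a < D) ∧
      ∀ s, (S.filter (fun a => σ a = s)).card ≤ cap s := by
  have hbD : ∀ a ∈ S, b a ≤ D := by
    intro a ha
    by_contra hlt
    have h1 := h D le_rfl htD
    rw [Ico_self, sum_empty] at h1
    have h2 : a ∈ S.filter (fun a => D ≤ b a) := mem_filter.2 ⟨ha, by omega⟩
    have h3 := card_pos.2 ⟨a, h2⟩
    omega
  obtain ⟨σ, h1, h2⟩ := pack_aux cap S (fun a => Ico (b a) D) (by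
    intro R hR hne
    obtain ⟨a, ha, hmin⟩ := exists_min_image R b hne
    refine ⟨a, ha, (card_le_card ?_).trans (h (b a) (hbD a (hR ha)) (hb a (hR ha)))⟩
    intro x hx
    exact mem_filter.2 ⟨hR hx, hmin x hx⟩)
  exact ⟨σ, fun a ha => mem_Ico.1 (h1 a ha), h2⟩

end Pool.Agent.P49c
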