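import Pool.Agent.Lib.P49c.Defs
import Pool.Agent.Lib.P49c.Pack

/-!
# Module P49c.SndL: sources and sinks
-/

set_option autoImplicit false

namespace Pool.Agent.P49c

open Finset Pool.Agent.P99b9fe Pool.Agent.P49d Pool.Agent.P49q

theorem slcnt_eq (n : ℕ) (P : ℕ → Prop) [DecidablePred P] :
    cnt n P = ((range n).filter P).card := by
  unfold cnt
  congr

theorem slcnt_mono {n : ℕ} {P Q : ℕ → Prop} (h : ∀ a < n, P a → Q a) : cnt n P ≤ cnt n Q := by
  classical
  rw [slcnt_eq, slcnt_eq]
  apply card_le_card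
  intro a ha
  rw [mem_filter, mem_range] at ha ⊢
  exact ⟨ha.1, h a ha.1 ha.2⟩

theorem slcnt_congr {n : ℕ} {P Q : ℕ → Prop} (h : ∀ a < n, (P a ↔ Q a)) : cnt n P = cnt n Q :=
  le_antisymm (slcnt_mono fun a ha => (h a ha).1) (slcnt_mono fun a ha => (h a ha).2)

/-- Splitting off a subset. -/
theorem slcnt_split {n : ℕ} {P Q : ℕ → Prop} (h : ∀ a < n, Q a → P a) :
    cnt n (fun a => P a ∧ ¬ Q a) + cnt n Q = cnt n P := by
  classical
  rw [slcnt_eq, slcnt_eq, slcnt_eq]
  have h1 : (range n).filter (fun a => P a ∧ ¬ Q a) = ((range n).filter P).filter (fun a => ¬ Q a) := by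
    rw [filter_filter]
  have h2 : (range n).filter Q = ((range n).filter P).filter Q := by
    rw [filter_filter]
    apply filter_congr
    intro a ha
    rw [mem_range] at ha
    exact ⟨fun hq => ⟨h a ha hq, hq⟩, fun hq => hq.2⟩
  rw [h1, h2, Nat.add_comm]
  exact card_filter_add_card_filter_not (s := (range n).filter P) Q

theorem slil_mono {n w m D : ℕ} {r : ℕ → ℕ → Prop} {p : ℕ → ℕ}
    (h1 : ∀ i < D, Sl n r w m D i (p i) (p (i + 1))) {i j : ℕ} (hij : i ≤ j) (hj : j ≤ D) :
    ∀ q < n, Il n r w (p i) q → Il n r w (p j) q := by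
  intro q hq h
  induction j with
  | zero =>
    have : i = 0 := by omega
    subst this
    exact h
  | succ j ih =>
    rcases Nat.lt_or_ge j i with hl | hl
    · have : i = j + 1 := by omega
      subst this
      exact h
    · exact (h1 j (by omega)).1 q hq (ih hl (by omega))

/-- The room for sources and sinks in the slot `s`. -/
noncomputable def capa (n : ℕ) (r : ℕ → ℕ → Prop) (w m : ℕ) (p : ℕ → ℕ) (s : ℕ) : ℕ :=
  m - (cnt n (Il n r w (p (s + 1))) - cnt n (Il n r w (p s)))

theorem capa_add {n w m D : ℕ} {r : ℕ → ℕ → Prop} {p : ℕ → ℕ}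
    (h1 : ∀ i < D, Sl n r w m D i (p i) (p (i + 1))) {s : ℕ} (hs : s < D) :
    capa n r w m p s + cnt n (Il n r w (p (s + 1))) = m + cnt n (Il n r w (p s)) := by
  obtain ⟨ha, _, hb, _⟩ := h1 s hs
  have hc := slcnt_mono ha
  unfold capa
  omega

theorem capa_range {n w m D : ℕ} {r : ℕ → ℕ → Prop} {p : ℕ → ℕ}
    (h1 : ∀ i < D, Sl n r w m D i (p i) (p (i + 1))) {v : ℕ} (hv : v ≤ D) :
    ∑ s ∈ range v, capa n r w m p s + cnt n (Il n r w (p v)) = m * v + cnt n (Il n r w (p 0)) := by
  induction v with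
  | zero => simp
  | succ v ih =>
    have h2 := ih (by omega)
    have h3 := capa_add h1 (show v < D by omega)
    rw [sum_range_succ, Nat.mul_succ]
    omega

theorem capa_Ico {n w m D : ℕ} {r : ℕ → ℕ → Prop} {p : ℕ → ℕ}
    (h1 : ∀ i < D, Sl n r w m D i (p i) (p (i + 1))) {v : ℕ} (hv : v ≤ D) :
    ∑ s ∈ Ico v D, capa n r w m p s + cnt n (Il n r w (p D)) =
      m * (D - v) + cnt n (Il n r w (p v)) := by
  have h2 := capa_range h1 hv
  have h3 := capa_range h1 le_rfl
  have h4 : ∑ s ∈ range v, capa n r w m p s + ∑ s ∈ Ico v D, capa n r w m p s =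
      ∑ s ∈ range D, capa n r w m p s := by
    rw [range_eq_Ico, range_eq_Ico]
    exact sum_Ico_consecutive _ (Nat.zero_le v) hv
  have h5 : m * D = m * v + m * (D - v) := by
    rw [← Nat.mul_add]
    congr 1
    omega
  omega

open Classical in
theorem snd_sources {n w m D t x y : ℕ} {r : ℕ → ℕ → Prop} (ht : t < D) (p : ℕ → ℕ)
    (h0 : ∀ q < n, ¬ Il n r w (p 0) q)
    (h1 : ∀ i < D, Sl n r w m D i (p i) (p (i + 1)))
    (h2 : Mx n r w m D t (p t) (p (t + 1)) x y) :
    ∃ σ : ℕ → ℕ, (∀ a < n, So n r a → ¬ Xs n m x a → σ a < t ∧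
        ∀ s < D, ∀ q < n, Il n r w (p (s + 1)) q → r a q → σ a < s) ∧
      ∀ s < D, ((range n).filter (fun a => So n r a ∧ ¬ Xs n m x a ∧ σ a = s)).card +
        cnt n (Il n r w (p (s + 1))) ≤ m + cnt n (Il n r w (p s)) := by
  have hI0 : cnt n (Il n r w (p 0)) = 0 := by
    rw [slcnt_eq, card_eq_zero, filter_eq_empty_iff]
    intro q hq
    exact h0 q (mem_range.1 hq)
  set S := (range n).filter (fun a => So n r a ∧ ¬ Xs n m x a) with hS
  let B : ℕ → ℕ → Prop := fun a s => s < t ∧ ∃ q < n, Il n r w (p (s + 1)) q ∧ r a q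
  let e : ℕ → ℕ := fun a => if h : ∃ s, B a s then Nat.find h else t
  have he : ∀ a, e a ≤ t := by
    intro a
    by_cases h : ∃ s, B a s
    · have e1 : e a = Nat.find h := dif_pos h
      rw [e1]
      exact (Nat.find_spec h).1.le
    · have e1 : e a = t := dif_neg h
      exact e1.le
  have heB : ∀ a s, B a s → e a ≤ s := by
    intro a s hB
    have h : ∃ s, B a s := ⟨s, hB⟩
    have e1 : e a = Nat.find h := dif_pos h
    rw [e1]
    exact Nat.find_min' h hB
  have heB' : ∀ a, e a < t → B a (e a) := by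
    intro a hlt
    by_cases h : ∃ s, B a s
    · have e1 : e a = Nat.find h := dif_pos h
      rw [e1]
      exact Nat.find_spec h
    · have e1 : e a = t := dif_neg h
      omega
  obtain ⟨σ, hσ, hload⟩ := pack (capa n r w m p) t S e (fun a _ => he a) (by
    intro v hv
    have hsum := capa_range h1 (show v ≤ D by omega)
    rw [hI0, Nat.add_zero] at hsum
    rcases Nat.lt_or_ge v t with hl | hl
    · have h4 := (h1 v (by omega)).2.2.2.1
      have h5 : (S.filter (fun a => e a ≤ v)).card ≤
          cnt n (fun a => So n r a ∧ ∃ q < n, Il n r w (p (v + 1)) q ∧ r a q) := by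
        rw [slcnt_eq]
        apply card_le_card
        intro a ha
        rw [mem_filter, hS, mem_filter] at ha
        rw [mem_filter]
        obtain ⟨⟨ha1, ha2, _⟩, ha3⟩ := ha
        obtain ⟨_, q, hq, hIq, hrq⟩ := heB' a (by omega)
        exact ⟨ha1, ha2, q, hq, slil_mono h1 (by omega) (by omega) q hq hIq, hrq⟩
      omega
    · have hvt : v = t := by omega
      subst hvt
      have h5 : (S.filter (fun a => e a ≤ v)).card ≤ S.card := card_filter_le _ _
      have h6 : cnt n (fun a => So n r a ∧ ¬ Xs n m x a) + cnt n (Xs n m x) = cnt n (So n r) :=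
        slcnt_split (fun a ha hX => (h2.1 a ha hX).1)
      have h7 : S.card = cnt n (fun a => So n r a ∧ ¬ Xs n m x a) := by
        rw [slcnt_eq, hS]
      have h8 := h2.2.2.2.1
      omega)
  refine ⟨σ, ?_, ?_⟩
  · intro a ha hSo hX
    have hmem : a ∈ S := by
      rw [hS, mem_filter, mem_range]
      exact ⟨ha, hSo, hX⟩
    have h3 := hσ a hmem
    have h4 := he a
    refine ⟨by omega, ?_⟩
    intro s hs q hq hI hr
    rcases Nat.lt_or_ge s t with hl | hl
    · have := heB a s ⟨hl, q, hq, hI, hr⟩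
      omega
    · omega
  · intro s hs
    have h3 := hload s
    have h4 : (range n).filter (fun a => So n r a ∧ ¬ Xs n m x a ∧ σ a = s) =
        S.filter (fun a => σ a = s) := by
      rw [hS, filter_filter]
      apply filter_congr
      intro a _
      rw [and_assoc]
    rw [h4]
    have h5 := capa_add h1 hs
    omega

open Classical in
theorem snd_sinks {n w m D t x y : ℕ} {r : ℕ → ℕ → Prop} (ht : t < D) (p : ℕ → ℕ)
    (hD : ∀ q < n, Co n r q → Il n r w (p D) q)
    (h1 : ∀ i < D, Sl n r w m D i (p i) (p (i + 1)))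
    (h2 : Mx n r w m D t (p t) (p (t + 1)) x y) :
    ∃ σ : ℕ → ℕ, (∀ b < n, Si n r b → ¬ Xs n m y b → t < σ b ∧ σ b < D ∧
        ∀ s < D, ∀ q < n, Co n r q → r q b → ¬ Il n r w (p s) q → s < σ b) ∧
      ∀ s < D, ((range n).filter (fun b => Si n r b ∧ ¬ Xs n m y b ∧ σ b = s)).card +
        cnt n (Il n r w (p (s + 1))) ≤ m + cnt n (Il n r w (p s)) := by
  have hID : cnt n (Il n r w (p D)) = cnt n (Co n r) :=
    slcnt_congr (fun q hq => ⟨fun h => h.2.1, hD q hq⟩)
  set S := (range n).filter (fun b => Si n r b ∧ ¬ Xs n m y b) with hS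
  let B : ℕ → ℕ → Prop := fun b s => ∃ q < n, Co n r q ∧ r q b ∧ ¬ Il n r w (p s) q
  let β : ℕ → ℕ := fun b => max (t + 1) (((range D).filter (B b)).sup (fun s => s + 1))
  obtain ⟨σ, hσ, hload⟩ := pack_end (capa n r w m p) D (t + 1) ht S β (fun a _ => le_max_left _ _) (by
    intro v hv htv
    have hsum := capa_Ico h1 hv
    rw [hID] at hsum
    rcases Nat.lt_or_ge (t + 1) v with hl | hl
    · have h4 := (h1 (v - 1) (by omega)).2.2.2.2
      have hv1 : v - 1 + 1 = v := by omega
      rw [hv1] at h4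
      have h5 : (S.filter (fun b => v ≤ β b)).card ≤
          cnt n (fun b => Si n r b ∧ ∃ q < n, Co n r q ∧ ¬ Il n r w (p (v - 1)) q ∧ r q b) := by
        rw [slcnt_eq]
        apply card_le_card
        intro b hb
        rw [mem_filter, hS, mem_filter] at hb
        rw [mem_filter]
        obtain ⟨⟨hb1, hb2, _⟩, hb3⟩ := hb
        have hb4 : v ≤ ((range D).filter (B b)).sup (fun s => s + 1) := by
          rcases le_max_iff.1 hb3 with h | h
          · omega
          · exact h
        rw [Finset.le_sup_iff (show ⊥ < v by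
          rw [Nat.bot_eq_zero]
          omega)] at hb4
        obtain ⟨s, hs, hvs⟩ := hb4
        rw [mem_filter, mem_range] at hs
        obtain ⟨hsD, q, hq, hCo, hrq, hI⟩ := hs
        exact ⟨hb1, hb2, q, hq, hCo,
          fun hI' => hI (slil_mono h1 (by omega) (by omega) q hq hI'), hrq⟩
      omega
    · have hvt : v = t + 1 := by omega
      subst hvt
      have h5 : (S.filter (fun b => t + 1 ≤ β b)).card ≤ S.card := card_filter_le _ _
      have h6 : cnt n (fun b => Si n r b ∧ ¬ Xs n m y b) + cnt n (Xs n m y) = cnt n (Si n r) :=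
        slcnt_split (fun b hb hX => (h2.2.1 b hb hX).1)
      have h7 : S.card = cnt n (fun b => Si n r b ∧ ¬ Xs n m y b) := by
        rw [slcnt_eq, hS]
      have h8 := h2.2.2.2.2.1
      omega)
  refine ⟨σ, ?_, ?_⟩
  · intro b hb hSi hX
    have hmem : b ∈ S := by
      rw [hS, mem_filter, mem_range]
      exact ⟨hb, hSi, hX⟩
    obtain ⟨h3, h3'⟩ := hσ b hmem
    have h4 : t + 1 ≤ β b := le_max_left _ _
    refine ⟨by omega, h3', ?_⟩
    intro s hs q hq hCo hrq hI
    have h5 : s + 1 ≤ ((range D).filter (B b)).sup (fun s => s + 1) :=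
      Finset.le_sup (f := fun s => s + 1)
        (mem_filter.2 ⟨mem_range.2 hs, q, hq, hCo, hrq, hI⟩)
    have h6 : ((range D).filter (B b)).sup (fun s => s + 1) ≤ β b := le_max_right _ _
    omega
  · intro s hs
    have h3 := hload s
    have h4 : (range n).filter (fun b => Si n r b ∧ ¬ Xs n m y b ∧ σ b = s) =
        S.filter (fun b => σ b = s) := by
      rw [hS, filter_filter]
      apply filter_congr
      intro b _
      rw [and_assoc]
    rw [h4]
    have h5 := capa_add h1 hs
    omega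

end Pool.Agent.P49c
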