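import Pool.Agent.Lib.P49c.Defs
import Pool.Agent.Lib.P49c.SndL

/-!
# Module P49c.Snd: soundness

PROOF SKETCH. Let `I u` be the set `(range n).filter (Il n r w (p u))`, `cap s = m - (|I (s + 1)| - |I s|)`, so
`∑ s ∈ range v, cap s = m * v - |I v|`. Every `x < n` satisfies exactly one of `So`, `Si`, `Co`. `X`, `Y` are the sets coded by
`x`, `y`.
Core tasks `q`: the slot `u` with `q ∈ I (u + 1)`, `q ∉ I u` (exists since `I 0` is empty, `I D` is the core).
Sources not in `X`, sinks not in `Y`: `snd_sources`, `snd_sinks` (module `SndL`).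
`X` and `Y`: the slot `t`. Precedence: cases (source, core), (source, sink), (core, core), (core, sink).
-/

set_option autoImplicit false

namespace Pool.Agent.P49c

open Finset Pool.Agent.P99b9fe Pool.Agent.P49d Pool.Agent.P49q

theorem sl_tri (n : ℕ) (r : ℕ → ℕ → Prop) (x : ℕ) : So n r x ∨ Co n r x ∨ Si n r x := by
  by_cases h : So n r x
  · exact Or.inl h
  · right
    have h1 : ∃ y < n, r y x := by
      by_contra hc
      apply h
      intro y hy hr
      exact hc ⟨y, hy, hr⟩
    by_cases h2 : ∃ z < n, r x z
    · exact Or.inl ⟨h1, h2⟩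
    · right
      refine ⟨h1, ?_⟩
      intro z hz hr
      exact h2 ⟨z, hz, hr⟩

theorem snd {n w m D t x y : ℕ} {r : ℕ → ℕ → Prop} (hr : SO r) (ht : t < D) (p : ℕ → ℕ)
    (h0 : ∀ q < n, ¬ Il n r w (p 0) q) (hD : ∀ q < n, Co n r q → Il n r w (p D) q)
    (h1 : ∀ i < D, Sl n r w m D i (p i) (p (i + 1)))
    (h2 : Mx n r w m D t (p t) (p (t + 1)) x y) :
    Sd r (range n) m D := by
  classical
  obtain ⟨σ₁, hs1, hl1⟩ := snd_sources ht p h0 h1 h2
  obtain ⟨σ₂, hs2, hl2⟩ := snd_sinks ht p hD h1 h2
  -- the slot of a core task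
  let cs : ℕ → ℕ := fun q => if h : ∃ u, Il n r w (p (u + 1)) q then Nat.find h else 0
  have hcs_le : ∀ q u, Il n r w (p (u + 1)) q → cs q ≤ u := by
    intro q u hI
    have h : ∃ u, Il n r w (p (u + 1)) q := ⟨u, hI⟩
    have e1 : cs q = Nat.find h := dif_pos h
    rw [e1]
    exact Nat.find_min' h hI
  have hcs : ∀ q < n, Co n r q →
      cs q < D ∧ Il n r w (p (cs q + 1)) q ∧ ¬ Il n r w (p (cs q)) q := by
    intro q hq hCo
    have hI : Il n r w (p (D - 1 + 1)) q := by
      rw [show D - 1 + 1 = D by omega]
      exact hD q hq hCo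
    have h : ∃ u, Il n r w (p (u + 1)) q := ⟨D - 1, hI⟩
    have e1 : cs q = Nat.find h := dif_pos h
    have h3 := hcs_le q _ hI
    refine ⟨by omega, ?_, ?_⟩
    · rw [e1]
      exact Nat.find_spec h
    · intro hI'
      rcases Nat.eq_zero_or_pos (cs q) with hz | hz
      · rw [hz] at hI'
        exact h0 q hq hI'
      · obtain ⟨v, hv⟩ : ∃ v, cs q = v + 1 := ⟨cs q - 1, by omega⟩
        rw [hv] at hI'
        have := hcs_le q v hI'
        omega
  have hIlt : ∀ q < n, ∀ u, Il n r w (p u) q → cs q < u := by
    intro q hq u hI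
    rcases Nat.eq_zero_or_pos u with hz | hz
    · rw [hz] at hI
      exact absurd hI (h0 q hq)
    · obtain ⟨v, hv⟩ : ∃ v, u = v + 1 := ⟨u - 1, by omega⟩
      rw [hv] at hI
      have := hcs_le q v hI
      omega
  -- the schedule
  let σ : ℕ → ℕ := fun q =>
    if So n r q then (if Xs n m x q then t else σ₁ q)
    else if Co n r q then cs q else (if Xs n m y q then t else σ₂ q)
  have hCoSo : ∀ q, Co n r q → ¬ So n r q := by
    intro q hCo hSo
    obtain ⟨⟨z, hz, hrz⟩, _⟩ := hCo
    exact hSo z hz hrz
  have hSiSo : ∀ q, Si n r q → ¬ So n r q := by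
    intro q hSi hSo
    obtain ⟨⟨z, hz, hrz⟩, _⟩ := hSi
    exact hSo z hz hrz
  have hSiCo : ∀ q, Si n r q → ¬ Co n r q := by
    intro q hSi hCo
    obtain ⟨_, z, hz, hrz⟩ := hCo
    exact hSi.2 z hz hrz
  have eSoX : ∀ q, So n r q → Xs n m x q → σ q = t := by
    intro q h3 h4
    show (if So n r q then (if Xs n m x q then t else σ₁ q)
      else if Co n r q then cs q else (if Xs n m y q then t else σ₂ q)) = t
    rw [if_pos h3, if_pos h4]
  have eSoN : ∀ q, So n r q → ¬ Xs n m x q → σ q = σ₁ q := by
    intro q h3 h4
    show (if So n r q then (if Xs n m x q then t else σ₁ q)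
      else if Co n r q then cs q else (if Xs n m y q then t else σ₂ q)) = σ₁ q
    rw [if_pos h3, if_neg h4]
  have eCo : ∀ q, Co n r q → σ q = cs q := by
    intro q h3
    show (if So n r q then (if Xs n m x q then t else σ₁ q)
      else if Co n r q then cs q else (if Xs n m y q then t else σ₂ q)) = cs q
    rw [if_neg (hCoSo q h3), if_pos h3]
  have eSiY : ∀ q, Si n r q → Xs n m y q → σ q = t := by
    intro q h3 h4
    show (if So n r q then (if Xs n m x q then t else σ₁ q)
      else if Co n r q then cs q else (if Xs n m y q then t else σ₂ q)) = t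
    rw [if_neg (hSiSo q h3), if_neg (hSiCo q h3), if_pos h4]
  have eSiN : ∀ q, Si n r q → ¬ Xs n m y q → σ q = σ₂ q := by
    intro q h3 h4
    show (if So n r q then (if Xs n m x q then t else σ₁ q)
      else if Co n r q then cs q else (if Xs n m y q then t else σ₂ q)) = σ₂ q
    rw [if_neg (hSiSo q h3), if_neg (hSiCo q h3), if_neg h4]
  have hlt : ∀ q < n, σ q < D := by
    intro q hq
    rcases sl_tri n r q with h3 | h3 | h3
    · by_cases h4 : Xs n m x q
      · rw [eSoX q h3 h4]
        exact ht
      · rw [eSoN q h3 h4]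
        have := (hs1 q hq h3 h4).1
        omega
    · rw [eCo q h3]
      exact (hcs q hq h3).1
    · by_cases h4 : Xs n m y q
      · rw [eSiY q h3 h4]
        exact ht
      · rw [eSiN q h3 h4]
        exact (hs2 q hq h3 h4).2.1
  refine ⟨σ, ?_, ?_, ?_⟩
  · intro u
    rcases Nat.lt_or_ge u D with hu | hu
    swap
    · have hE : (range n).filter (fun q => σ q = u) = ∅ := by
        rw [filter_eq_empty_iff]
        intro q hq
        have := hlt q (mem_range.1 hq)
        omega
      rw [hE, card_empty]
      exact Nat.zero_le _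
    have hcore : cnt n (fun q => Il n r w (p (u + 1)) q ∧ ¬ Il n r w (p u) q) +
        cnt n (Il n r w (p u)) = cnt n (Il n r w (p (u + 1))) := slcnt_split (h1 u hu).1
    rw [slcnt_eq] at hcore
    have hcoreI : ∀ q < n, Co n r q → cs q = u →
        Il n r w (p (u + 1)) q ∧ ¬ Il n r w (p u) q := by
      intro q hq hCo hqu
      have h3 := hcs q hq hCo
      rw [hqu] at h3
      exact h3.2
    rcases Nat.lt_trichotomy u t with hut | hut | hut
    · have hsub : (range n).filter (fun q => σ q = u) ⊆
          (range n).filter (fun a => So n r a ∧ ¬ Xs n m x a ∧ σ₁ a = u) ∪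
            (range n).filter (fun q => Il n r w (p (u + 1)) q ∧ ¬ Il n r w (p u) q) := by
        intro q hq
        rw [mem_filter, mem_range] at hq
        obtain ⟨hqn, hqu⟩ := hq
        rw [mem_union, mem_filter, mem_filter, mem_range]
        rcases sl_tri n r q with h3 | h3 | h3
        · by_cases h4 : Xs n m x q
          · rw [eSoX q h3 h4] at hqu
            omega
          · rw [eSoN q h3 h4] at hqu
            exact Or.inl ⟨hqn, h3, h4, hqu⟩
        · rw [eCo q h3] at hqu
          exact Or.inr ⟨hqn, hcoreI q hqn h3 hqu⟩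
        · by_cases h4 : Xs n m y q
          · rw [eSiY q h3 h4] at hqu
            omega
          · rw [eSiN q h3 h4] at hqu
            have := (hs2 q hqn h3 h4).1
            omega
      have h3 := (card_le_card hsub).trans (card_union_le _ _)
      have h4 := hl1 u hu
      omega
    · subst hut
      have hsub : (range n).filter (fun q => σ q = u) ⊆
          ((range n).filter (Xs n m x) ∪ (range n).filter (Xs n m y)) ∪
            (range n).filter (fun q => Il n r w (p (u + 1)) q ∧ ¬ Il n r w (p u) q) := by
        intro q hq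
        rw [mem_filter, mem_range] at hq
        obtain ⟨hqn, hqu⟩ := hq
        rw [mem_union, mem_union, mem_filter, mem_filter, mem_filter, mem_range]
        rcases sl_tri n r q with h3 | h3 | h3
        · by_cases h4 : Xs n m x q
          · exact Or.inl (Or.inl ⟨hqn, h4⟩)
          · rw [eSoN q h3 h4] at hqu
            have := (hs1 q hqn h3 h4).1
            omega
        · rw [eCo q h3] at hqu
          exact Or.inr ⟨hqn, hcoreI q hqn h3 hqu⟩
        · by_cases h4 : Xs n m y q
          · exact Or.inl (Or.inr ⟨hqn, h4⟩)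
          · rw [eSiN q h3 h4] at hqu
            have := (hs2 q hqn h3 h4).1
            omega
      have h3 := (card_le_card hsub).trans (card_union_le _ _)
      have h3' := card_union_le ((range n).filter (Xs n m x)) ((range n).filter (Xs n m y))
      have h4 := h2.2.2.2.2.2
      rw [slcnt_eq n (Xs n m x), slcnt_eq n (Xs n m y)] at h4
      omega
    · have hsub : (range n).filter (fun q => σ q = u) ⊆
          (range n).filter (fun b => Si n r b ∧ ¬ Xs n m y b ∧ σ₂ b = u) ∪
            (range n).filter (fun q => Il n r w (p (u + 1)) q ∧ ¬ Il n r w (p u) q) := by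
        intro q hq
        rw [mem_filter, mem_range] at hq
        obtain ⟨hqn, hqu⟩ := hq
        rw [mem_union, mem_filter, mem_filter, mem_range]
        rcases sl_tri n r q with h3 | h3 | h3
        · by_cases h4 : Xs n m x q
          · rw [eSoX q h3 h4] at hqu
            omega
          · rw [eSoN q h3 h4] at hqu
            have := (hs1 q hqn h3 h4).1
            omega
        · rw [eCo q h3] at hqu
          exact Or.inr ⟨hqn, hcoreI q hqn h3 hqu⟩
        · by_cases h4 : Xs n m y q
          · rw [eSiY q h3 h4] at hqu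
            omega
          · rw [eSiN q h3 h4] at hqu
            exact Or.inl ⟨hqn, h3, h4, hqu⟩
      have h3 := (card_le_card hsub).trans (card_union_le _ _)
      have h4 := hl2 u hu
      omega
  · intro q hq
    exact hlt q (mem_range.1 hq)
  · intro a ha b hb hab
    rw [mem_range] at ha hb
    show σ a < σ b
    have haSi : ¬ Si n r a := fun h => h.2 b hb hab
    have hbSo : ¬ So n r b := fun h => h a ha hab
    rcases sl_tri n r a with h3 | h3 | h3
    · rcases sl_tri n r b with h4 | h4 | h4
      · exact absurd h4 hbSo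
      · -- source, core
        rw [eCo b h4]
        obtain ⟨h5, h6, h7⟩ := hcs b hb h4
        by_cases h8 : Xs n m x a
        · rw [eSoX a h3 h8]
          by_contra hc
          exact (h2.1 a ha h8).2 b hb (slil_mono h1 (by omega) (by omega) b hb h6) hab
        · rw [eSoN a h3 h8]
          exact (hs1 a ha h3 h8).2 _ h5 b hb h6 hab
      · -- source, sink
        by_cases h8 : Xs n m x a
        · rw [eSoX a h3 h8]
          by_cases h9 : Xs n m y b
          · exact absurd hab (h2.2.2.1 a ha b hb h8 h9)
          · rw [eSiN b h4 h9]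
            exact (hs2 b hb h4 h9).1
        · rw [eSoN a h3 h8]
          have h10 := (hs1 a ha h3 h8).1
          by_cases h9 : Xs n m y b
          · rw [eSiY b h4 h9]
            exact h10
          · rw [eSiN b h4 h9]
            have := (hs2 b hb h4 h9).1
            omega
    · obtain ⟨h5, h6, h7⟩ := hcs a ha h3
      rw [eCo a h3]
      rcases sl_tri n r b with h4 | h4 | h4
      · exact absurd h4 hbSo
      · -- core, core
        rw [eCo b h4]
        obtain ⟨h8, h9, h10⟩ := hcs b hb h4
        exact hIlt a ha _ ((h1 _ h8).2.1 b hb h9 h10 a ha h3 hab)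
      · -- core, sink
        by_cases h9 : Xs n m y b
        · rw [eSiY b h4 h9]
          exact hIlt a ha _ ((h2.2.1 b hb h9).2 a ha h3 hab)
        · rw [eSiN b h4 h9]
          exact (hs2 b hb h4 h9).2.2 _ h5 a ha h3 hab h7
    · exact absurd h3 haSi

end Pool.Agent.P49c
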