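import Pool.Agent.Lib.P49c.Tab
import Pool.Agent.Lib.P49c.Snd
import Pool.Agent.Lib.P49c.Cmp
import Pool.Agent.Lib.P49c.PAcc
import Pool.Agent.Lib.P49d.PIn
import Pool.Agent.Lib.P49d.Final

/-!
# A fixed number of processors, inner tasks of bounded dominance width: the theorem
-/

set_option autoImplicit false

namespace Pool.Agent.P49c

open Finset Pool.Agent.P99b9fe Pool.Agent.Lib.PolyTime Pool.Agent.Lib.Pa7c826
open Pool.Agent.Lib.P8e91ed.PT Pool.Agent.P49d Pool.Agent.P49k Pool.Agent.P49q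

section Poly

variable {α : Type} {D : α → Prop} {ctx : List (α → List Bool)} {n : α → ℕ}
  {t : α → List Bool}

theorem poly_gvalC (w m : ℕ) (hn : PolyN D ctx n) (ht : PolyC D ctx t) :
    PolyN D ctx (fun a => gvalC (n a) (rT (n a) (t a)) w m) := by
  classical
  have h1 : PolyP (Dx D n) (cx ctx)
      (fun p => ∀ k' < p.2 + 1, ¬ AccC (n p.1) (rT (n p.1) (t p.1)) w m k') := by
    refine p_fa (n := fun p : α × ℕ => p.2 + 1)
      (P := fun p k' => ¬ AccC (n p.1) (rT (n p.1) (t p.1)) w m k') nL.succ ?_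
    exact (poly_accC w m (n := fun p : (α × ℕ) × ℕ => n p.1.1)
      (t := fun p => t p.1.1) (d := fun p => p.2) (nU (nU hn)) (cU (cU ht)) nL).not
  have h2 : PolyN D ctx (fun a => ((range (n a)).filter (fun j => ∀ k' < j + 1,
      ¬ AccC (n a) (rT (n a) (t a)) w m k')).card) :=
    n_card (n := n) (P := fun a j => ∀ k' < j + 1, ¬ AccC (n a) (rT (n a) (t a)) w m k') hn h1
  refine h2.congr (fun a ha => ?_)
  unfold gvalC
  congr

end Poly

theorem card_spec (n : ℕ) (P : ℕ → Prop)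
    [DecidablePred (fun k => ∀ k' < k + 1, ¬ P k')] :
    ((range n).filter (fun k => ∀ k' < k + 1, ¬ P k')).card ≤ n ∧
    (((range n).filter (fun k => ∀ k' < k + 1, ¬ P k')).card < n →
      P ((range n).filter (fun k => ∀ k' < k + 1, ¬ P k')).card) ∧
    ∀ D < n, P D → ((range n).filter (fun k => ∀ k' < k + 1, ¬ P k')).card ≤ D := by
  classical
  by_cases h : ∃ k, k < n ∧ P k
  · have h0 := Nat.find_spec h
    have h1 : ∀ j, j < Nat.find h → ¬ (j < n ∧ P j) := fun j hj => Nat.find_min h hj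
    have hS : (range n).filter (fun k => ∀ k' < k + 1, ¬ P k') = range (Nat.find h) := by
      ext k
      simp only [mem_filter, mem_range]
      constructor
      · rintro ⟨hk, hk'⟩
        by_contra hc
        exact hk' (Nat.find h) (by omega) h0.2
      · intro hk
        refine ⟨by omega, fun k' hk' hP => h1 k' (by omega) ⟨by omega, hP⟩⟩
    rw [hS, card_range]
    exact ⟨h0.1.le, fun _ => h0.2, fun D hD hP => Nat.find_min' h ⟨hD, hP⟩⟩
  · have hS : (range n).filter (fun k => ∀ k' < k + 1, ¬ P k') = range n := by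
      apply filter_true_of_mem
      intro k hk k' hk' hP
      exact h ⟨k', by rw [mem_range] at hk; omega, hP⟩
    rw [hS, card_range]
    exact ⟨le_rfl, fun h' => absurd h' (lt_irrefl n), fun D hD hP => absurd ⟨D, hD, hP⟩ h⟩

theorem acc_sd {n w m D : ℕ} {r : ℕ → ℕ → Prop} (hr : SO r) (h : AccC n r w m D) :
    Sd r (range n) m D := by
  obtain ⟨t, ht, x, -, y, -, c, hc, hfull, hp⟩ := h
  obtain ⟨p, -, h0, hpc, h1, h2⟩ := pt_path D c hc hp
  exact snd hr ht p h0 (fun q hq hC => by rw [hpc]; exact hfull q hq hC) h1 (h2 ht)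

theorem sd_acc {n w m D : ℕ} {r : ℕ → ℕ → Prop} (hr : SO r)
    (hw : ∀ S ⊆ range n, (∀ x ∈ S, Co n r x) → w < S.card → ∃ x ∈ S, ∃ y ∈ S, Dm n r x y)
    (hD : D < n) (h : Sd r (range n) m D) : AccC n r w m D := by
  obtain ⟨t, ht, x, hx, y, hy, p, hp, h0, hfull, h1, h2⟩ := cmp hr hw (by omega) h
  exact ⟨t, ht, x, hx, y, hy, p D, hp D, hfull,
    path_pt p D hD.le (fun i _ => hp i) h0 h1 (fun _ => h2)⟩

theorem gvalC_sound {n : ℕ} {r : ℕ → ℕ → Prop} (hr : SO r) (w : ℕ) {m : ℕ} (hm : 1 ≤ m) :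
    Sd r (range n) m (gvalC n r w m) := by
  classical
  obtain ⟨h1, h2, -⟩ := card_spec n (AccC n r w m)
  have hg : gvalC n r w m =
      ((range n).filter (fun j => ∀ k' < j + 1, ¬ AccC n r w m k')).card := by
    unfold gvalC
    congr
  rw [← hg] at h1 h2
  rcases Nat.lt_or_ge (gvalC n r w m) n with h | h
  · exact acc_sd hr (h2 h)
  · have h6 : gvalC n r w m = n := le_antisymm h1 h
    rw [h6]
    have h7 := sd_triv (V := range n) (m := m) hr hm
    rwa [card_range] at h7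

theorem gvalC_opt {n w m D : ℕ} {r : ℕ → ℕ → Prop} (hr : SO r)
    (hw : ∀ S ⊆ range n, (∀ x ∈ S, Co n r x) → w < S.card → ∃ x ∈ S, ∃ y ∈ S, Dm n r x y)
    (h : Sd r (range n) m D) : gvalC n r w m ≤ D := by
  classical
  obtain ⟨h1, -, h3⟩ := card_spec n (AccC n r w m)
  have hg : gvalC n r w m =
      ((range n).filter (fun j => ∀ k' < j + 1, ¬ AccC n r w m k')).card := by
    unfold gvalC
    congr
  rw [← hg] at h1 h3
  rcases Nat.lt_or_ge D n with hD | hD
  · exact h3 D hD (sd_acc hr hw hD h)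
  · exact h1.trans hD

theorem main (m w : ℕ) (hm : 1 ≤ m) : ∃ f : P49d.Inst → ℕ,
    Nonempty (Turing.TM2ComputableInPolyTime (α := P49d.Inst) (αΓ := Bool) (βΓ := Bool)
      P49d.enc (fun x => List.replicate x true) f) ∧
    ∀ (n : ℕ) (r : Fin n → Fin n → Prop) (hr : SO r),
      Sd r univ m (f ⟨n, r, hr⟩) ∧
      ((∀ S : Finset (Fin n), (∀ x ∈ S, (∃ y, r y x) ∧ ∃ z, r x z) → w < S.card →
          ∃ x ∈ S, ∃ y ∈ S, x ≠ y ∧ (∀ z, r z x → r z y) ∧ ∀ z, r y z → r x z) →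
        ∀ D, Sd r univ m D → f ⟨n, r, hr⟩ ≤ D) := by
  have h : PolyC (fun _ : P49d.Inst => True) [P49d.enc] (fun I => P49d.enc I) :=
    PolyC.var (by simp)
  have hn := poly_nI h
  obtain ⟨t, ht, ht'⟩ := poly_tI h
  have h1 : PolyN (fun _ : P49d.Inst => True) [P49d.enc] (fun I => gvalC I.1 (rN I.2.1) w m) :=
    (poly_gvalC w m hn ht).congr fun I hI => by rw [ht' I hI]
  refine ⟨fun I => gvalC I.1 (rN I.2.1) w m, toTM2'' _ (fun x => List.replicate x true) h1,
    fun n r hr => ⟨?_, ?_⟩⟩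
  · exact sd_fin.1 (gvalC_sound (rN_so hr) w hm)
  · intro hw D hsd
    refine gvalC_opt (rN_so hr) ?_ (sd_fin.2 hsd)
    intro S hS hCo hcard
    obtain ⟨x, hx, y, hy, hxy, h1, h2⟩ := hw (FinNatAux.up n S) (by
        intro x hx
        obtain ⟨⟨y, hy, h2⟩, z, hz, h3⟩ := hCo x.1 (FinNatAux.mem_up.1 hx)
        obtain ⟨hy', hx', h4⟩ := h2
        obtain ⟨hx'', hz', h5⟩ := h3
        exact ⟨⟨⟨y, hy'⟩, h4⟩, ⟨z, hz'⟩, h5⟩)
      (by rw [FinNatAux.card_up hS]; exact hcard)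
    have h3 : ∀ z < n, rN r z x.1 → rN r z y.1 := by
      intro z hz h4
      obtain ⟨hz', hx', h5⟩ := h4
      exact ⟨hz', y.2, h1 ⟨z, hz'⟩ h5⟩
    have h4 : ∀ z < n, rN r y.1 z → rN r x.1 z := by
      intro z hz h5
      obtain ⟨hy', hz', h6⟩ := h5
      exact ⟨x.2, hz', h2 ⟨z, hz'⟩ h6⟩
    rcases dm_or (fun h => hxy (Fin.ext h)) h3 h4 with h5 | h5
    · exact ⟨x, FinNatAux.mem_up.1 hx, y, FinNatAux.mem_up.1 hy, h5⟩
    · exact ⟨y, FinNatAux.mem_up.1 hy, x, FinNatAux.mem_up.1 hx, h5⟩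

end Pool.Agent.P49c
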