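import Pool.Agent.Lib.P49c.WidI
import Pool.Agent.Lib.P49c.Final

/-!
# A fixed number of processors, classes generated from inner tasks: the theorem

The algorithm of `P49c/Final.lean` is applied to the flattened order of `P49d`, in which the inner
tasks have bounded dominance width (`width_boundI`).
-/

set_option autoImplicit false

namespace Pool.Agent.P49c

open Finset Pool.Agent.P99b9fe Pool.Agent.Lib.PolyTime Pool.Agent.Lib.Pa7c826
open Pool.Agent.Lib.P8e91ed.PT Pool.Agent.P49d Pool.Agent.P49k Pool.Agent.P49q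

/-- The classes on the numbers. -/
theorem clsI_fin {n w d : ℕ} {r : Fin n → Fin n → Prop} (Z : Finset (Fin n))
    (h : ClsI r w d Z) : ClsI (rN r) w d (Z.map Fin.valEmbedding) := by
  induction d generalizing Z with
  | zero =>
    show (Z.map Fin.valEmbedding).card ≤ 1
    rw [card_map]
    exact h
  | succ d ih =>
    obtain ⟨c, hc, hor⟩ := h
    refine ⟨FinNatAux.ex c, fun i => ?_, ?_⟩
    · rw [FinNatAux.filter_ex]
      exact ih _ (hc i)
    · rcases hor with hor | ⟨h1, h2⟩
      · left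
        intro x hx y hy hxy
        obtain ⟨a, ha, rfl⟩ := mem_map.1 hx
        obtain ⟨b, hb, rfl⟩ := mem_map.1 hy
        have := hor a ha b hb (FinNatAux.rN_val.1 hxy)
        simp only [Fin.valEmbedding_apply, FinNatAux.ex_val]
        exact this
      · right
        refine ⟨?_, ?_⟩
        · intro x hx y hy x' hx' y' hy' e1 e2 e3 hxy
          obtain ⟨a, ha, rfl⟩ := mem_map.1 hx
          obtain ⟨b, hb, rfl⟩ := mem_map.1 hy
          obtain ⟨a', ha', rfl⟩ := mem_map.1 hx'
          obtain ⟨b', hb', rfl⟩ := mem_map.1 hy'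
          simp only [Fin.valEmbedding_apply, FinNatAux.ex_val, ne_eq] at e1 e2 e3
          exact FinNatAux.rN_val.2
            (h1 a ha b hb a' ha' b' hb' e1 e2 e3 (FinNatAux.rN_val.1 hxy))
        · intro A hA hin hw hinj
          have hAr : A ⊆ range n := hA.trans (FinNatAux.map_sub_range Z)
          obtain ⟨x, hx, y, hy, hne, hxy, hxy'⟩ := h2 (FinNatAux.up n A)
            (fun x hx => FinNatAux.mem_map_val.1 (hA (FinNatAux.mem_up.1 hx)))
            (fun x hx => by
              obtain ⟨⟨y, hy⟩, z, hz⟩ := hin x.1 (FinNatAux.mem_up.1 hx)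
              obtain ⟨hy', hx', h4⟩ := hy
              obtain ⟨hx'', hz', h5⟩ := hz
              exact ⟨⟨⟨y, hy'⟩, h4⟩, ⟨z, hz'⟩, h5⟩)
            (by rw [FinNatAux.card_up hAr]; exact hw)
            (fun x hx y hy hxy => Fin.ext (hinj _ (FinNatAux.mem_up.1 hx) _
              (FinNatAux.mem_up.1 hy) (by rw [FinNatAux.ex_val, FinNatAux.ex_val]; exact hxy)))
          refine ⟨x, FinNatAux.mem_up.1 hx, y, FinNatAux.mem_up.1 hy,
            fun he => hne (Fin.ext he), ?_, ?_⟩
          · intro z hz hzx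
            obtain ⟨a, ha, rfl⟩ := mem_map.1 hz
            exact FinNatAux.rN_val.2 (hxy a ha (FinNatAux.rN_val.1 hzx))
          · intro z hz hyz
            obtain ⟨a, ha, rfl⟩ := mem_map.1 hz
            exact FinNatAux.rN_val.2 (hxy' a ha (FinNatAux.rN_val.1 hyz))

theorem algI_sound {n m : ℕ} {r : ℕ → ℕ → Prop} (hr : SO r)
    (hs : ∀ x y, r x y → x ∈ range n ∧ y ∈ range n) (hm : 2 ≤ m) (K : ℕ) :
    Sd r (range n) m (gvalC n (star n m r) K m) := by
  have hI := star_inv (m := m) hr hs hm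
  exact hI.sd _ (gvalC_sound hI.so K (by omega))

theorem algI_opt {n m w d D : ℕ} {r : ℕ → ℕ → Prop} (hr : SO r)
    (hs : ∀ x y, r x y → x ∈ range n ∧ y ∈ range n) (hm : 2 ≤ m)
    (hC : ClsI r w d (range n)) (h : Sd r (range n) m D) :
    gvalC n (star n m r) ((m + w) ^ d) m ≤ D := by
  have hI := star_inv (m := m) hr hs hm
  have hsd : Sd (star n m r) (range n) m D := by
    obtain ⟨σ, e1, e2, e3⟩ := h
    exact ⟨σ, e1, e2, fun x hx y hy hxy => e3 x hx y hy (hI.sub x y hxy)⟩
  refine gvalC_opt hI.so ?_ hsd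
  intro A hA hCo hc
  by_contra hcon
  push Not at hcon
  have hV : Md r (range n) (range n) :=
    ⟨subset_rfl, fun x _ y _ z hz hzn => absurd hz hzn⟩
  have h1 := width_boundI (w := w) hs hm hI (star_stable hr hs hm) d (range n) hV hC A hA
    (fun x hx => by
      obtain ⟨⟨y, -, hy⟩, z, -, hz⟩ := hCo x hx
      exact ⟨⟨y, hI.sub y x hy⟩, z, hI.sub x z hz⟩) ?_
  · omega
  · intro x hx y hy hne hdm
    rcases dm_or (n := n) (r := star n m r) hne (fun z _ hz => hdm.1 z hz)
      (fun z _ hz => hdm.2 z hz) with h2 | h2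
    · exact hcon x hx y hy h2
    · exact hcon y hy x hx h2

theorem mainI (m w d : ℕ) (hm : 2 ≤ m) : ∃ f : P49d.Inst → ℕ,
    Nonempty (Turing.TM2ComputableInPolyTime (α := P49d.Inst) (αΓ := Bool) (βΓ := Bool)
      P49d.enc (fun x => List.replicate x true) f) ∧
    ∀ (n : ℕ) (r : Fin n → Fin n → Prop) (hr : SO r), Sd r univ m (f ⟨n, r, hr⟩) ∧
      (ClsI r w d univ → ∀ D, Sd r univ m D → f ⟨n, r, hr⟩ ≤ D) := by
  set K := (m + w) ^ d with hK
  have h : PolyC (fun _ : P49d.Inst => True) [P49d.enc] (fun I => P49d.enc I) :=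
    PolyC.var (by simp)
  have hn := poly_nI h
  obtain ⟨t0, ht0, ht0'⟩ := poly_tI h
  obtain ⟨t, ht, ht'⟩ := poly_star m hn ht0
  have h1 : PolyN (fun _ : P49d.Inst => True) [P49d.enc]
      (fun I => gvalC I.1 (star I.1 m (rN I.2.1)) K m) :=
    (poly_gvalC K m hn ht).congr fun I hI => by rw [ht' I hI, ht0' I hI]
  refine ⟨fun I => gvalC I.1 (star I.1 m (rN I.2.1)) K m,
    toTM2'' _ (fun x => List.replicate x true) h1, fun n r hr => ⟨?_, fun hT D hD => ?_⟩⟩
  · exact sd_fin.1 (algI_sound (rN_so hr) rN_bd hm K)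
  · refine algI_opt (rN_so hr) rN_bd hm ?_ (sd_fin.2 hD)
    rw [← FinNatAux.map_univ]
    exact clsI_fin _ hT

end Pool.Agent.P49c
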