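import Pool.Agent.Lib.P49c.Defs
import Pool.Agent.Lib.P49k.Chn

/-!
# Module P49c.Tab: tables and paths

PROOF SKETCH. `tab_inv`, `tabP_fix`, `tabP_lt` as in `on_inv`, `on_fix` of `P49k/Chn.lean` (see also `P49q/Lab.lean`: `gq_inv`,
`gq_fix`); `(u * N + c) / N = u` for `c < N = (n + 1) ^ w`. `pt_path` by induction on `u` (the path for `u - 1`, changed at `u`:
`Function.update` or `fun i => if i = u then c else p i`); `path_pt` by induction on `u`.
-/

set_option autoImplicit false

namespace Pool.Agent.P49c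

open Finset Pool.Agent.P99b9fe Pool.Agent.P49d Pool.Agent.P49k Pool.Agent.P49q

theorem pR_mono (n : ℕ) (r : ℕ → ℕ → Prop) (w m D t x y : ℕ) (T T' : ℕ → Prop)
    (hT : ∀ z, T z → T' z) (p : ℕ) (hp : pR n r w m D t x y T p) : pR n r w m D t x y T' p := by
  rcases hp with h | ⟨h0, c', hc', hTc, h⟩
  · exact Or.inl h
  · exact Or.inr ⟨h0, c', hc', hT _ hTc, h⟩

theorem divmodN {N : ℕ} (u c : ℕ) (hc : c < N) : (u * N + c) / N = u ∧ (u * N + c) % N = c := by
  have hN : 0 < N := by omega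
  constructor
  · rw [Nat.add_comm, Nat.add_mul_div_right _ _ hN, Nat.div_eq_of_lt hc, Nat.zero_add]
  · rw [Nat.add_comm, Nat.add_mul_mod_self_right, Nat.mod_eq_of_lt hc]

theorem pt_inv {n w m D t x y u c : ℕ} {r : ℕ → ℕ → Prop} (hc : c < (n + 1) ^ w)
    (h : Pt n r w m D t x y u c) :
    u < n + 1 ∧ pC n r w m D t x y
      (tabP (pR n r w m D t x y) ((n + 1) * (n + 1) ^ w) ((n + 1) * (n + 1) ^ w)) u c := by
  have h1 := tab_inv (pR_mono n r w m D t x y) h
  have h2 := tabP_lt h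
  unfold pR at h1
  rw [(divmodN u c hc).1, (divmodN u c hc).2] at h1
  refine ⟨?_, h1⟩
  by_contra hcon
  have h3 : (n + 1) * (n + 1) ^ w ≤ u * (n + 1) ^ w := Nat.mul_le_mul_right _ (by omega)
  omega

theorem pt_fix {n w m D t x y u c : ℕ} {r : ℕ → ℕ → Prop} (hc : c < (n + 1) ^ w) (hu : u < n + 1)
    (h : pC n r w m D t x y
      (tabP (pR n r w m D t x y) ((n + 1) * (n + 1) ^ w) ((n + 1) * (n + 1) ^ w)) u c) :
    Pt n r w m D t x y u c := by
  have hlt : u * (n + 1) ^ w + c < (n + 1) * (n + 1) ^ w := by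
    have h3 : (u + 1) * (n + 1) ^ w ≤ (n + 1) * (n + 1) ^ w := Nat.mul_le_mul_right _ hu
    have h4 : (u + 1) * (n + 1) ^ w = u * (n + 1) ^ w + (n + 1) ^ w := by ring
    omega
  refine tabP_fix hlt ?_
  show pC n r w m D t x y _ ((u * (n + 1) ^ w + c) / (n + 1) ^ w)
    ((u * (n + 1) ^ w + c) % (n + 1) ^ w)
  rw [(divmodN u c hc).1, (divmodN u c hc).2]
  exact h

theorem pt_path {n w m D t x y : ℕ} {r : ℕ → ℕ → Prop} (u c : ℕ) (hc : c < (n + 1) ^ w)
    (h : Pt n r w m D t x y u c) :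
    ∃ p : ℕ → ℕ, (∀ i ≤ u, p i < (n + 1) ^ w) ∧ (∀ q < n, ¬ Il n r w (p 0) q) ∧ p u = c ∧
      (∀ i < u, Sl n r w m D i (p i) (p (i + 1))) ∧
      (t < u → Mx n r w m D t (p t) (p (t + 1)) x y) := by
  induction u generalizing c with
  | zero =>
    obtain ⟨_, h1⟩ := pt_inv hc h
    rcases h1 with ⟨_, h1⟩ | ⟨h1, _⟩
    · exact ⟨fun _ => c, fun _ _ => hc, h1, rfl, fun i hi => by omega, fun ht => by omega⟩
    · omega
  | succ u ih =>
    obtain ⟨_, h1⟩ := pt_inv hc h
    rcases h1 with ⟨h1, _⟩ | ⟨_, c', hc', hT, hS, hM⟩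
    · omega
    rw [Nat.add_sub_cancel] at hT hS hM
    obtain ⟨p, hp, h0, hpu, hs, hm⟩ := ih c' hc' hT
    have e1 : ∀ i, i ≤ u → (fun i => if i = u + 1 then c else p i) i = p i := by
      intro i hi
      exact if_neg (by omega)
    have e2 : (fun i => if i = u + 1 then c else p i) (u + 1) = c := if_pos rfl
    refine ⟨fun i => if i = u + 1 then c else p i, ?_, ?_, e2, ?_, ?_⟩
    · intro i hi
      rcases Nat.lt_or_ge u i with hl | hl
      · have : i = u + 1 := by omega
        subst this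
        rw [e2]
        exact hc
      · rw [e1 i hl]
        exact hp i hl
    · rw [e1 0 (Nat.zero_le _)]
      exact h0
    · intro i hi
      rcases Nat.lt_or_ge i u with hl | hl
      · rw [e1 i (by omega), e1 (i + 1) (by omega)]
        exact hs i hl
      · have : i = u := by omega
        subst this
        rw [e1 i le_rfl, e2, hpu]
        exact hS
    · intro ht
      rcases Nat.lt_or_ge t u with hl | hl
      · rw [e1 t (by omega), e1 (t + 1) (by omega)]
        exact hm hl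
      · have : u = t := by omega
        subst this
        rw [e1 u le_rfl, e2, hpu]
        exact hM rfl

theorem path_pt {n w m D t x y : ℕ} {r : ℕ → ℕ → Prop} (p : ℕ → ℕ) (u : ℕ) (hu : u ≤ n)
    (hp : ∀ i ≤ u, p i < (n + 1) ^ w) (h0 : ∀ q < n, ¬ Il n r w (p 0) q)
    (h1 : ∀ i < u, Sl n r w m D i (p i) (p (i + 1)))
    (h2 : t < u → Mx n r w m D t (p t) (p (t + 1)) x y) :
    Pt n r w m D t x y u (p u) := by
  induction u with
  | zero => exact pt_fix (hp 0 le_rfl) (by omega) (Or.inl ⟨rfl, h0⟩)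
  | succ u ih =>
    have hprev : Pt n r w m D t x y u (p u) :=
      ih (by omega) (fun i hi => hp i (by omega)) (fun i hi => h1 i (by omega))
        (fun ht => h2 (by omega))
    refine pt_fix (hp (u + 1) le_rfl) (by omega)
      (Or.inr ⟨by omega, p u, hp u (by omega), ?_, ?_, ?_⟩)
    · rw [Nat.add_sub_cancel]
      exact hprev
    · rw [Nat.add_sub_cancel]
      exact h1 u (by omega)
    · rw [Nat.add_sub_cancel]
      intro hut
      subst hut
      exact h2 (by omega)

end Pool.Agent.P49c
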