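import Pool.Agent.Lib.P49c.StmtI
import Pool.Agent.Lib.P49d.Width

/-!
# Module P49c.WidI: the dominance width of the inner tasks of the flattened order

As `P49d/Width.lean` and `SucW/WidS.lean`, for sets of inner elements.
-/

set_option autoImplicit false

namespace Pool.Agent.P49c

open Finset Pool.Agent.P49d

variable {α : Type} [DecidableEq α] {r s : α → α → Prop} {V : Finset α} {m w : ℕ}

namespace WidIAux

/-- The sum. -/
theorem sum_case (hs : ∀ x y, r x y → x ∈ V ∧ y ∈ V) (hI : Inv r s V m)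
    {Z : Finset α} (hZ : Md r V Z) (c : α → ℕ)
    (hc : ∀ A ⊆ Z, (∀ x ∈ A, (∃ y, r y x) ∧ ∃ z, r x z) → w < A.card →
      (∀ x ∈ A, ∀ y ∈ A, c x = c y → x = y) →
      ∃ x ∈ A, ∃ y ∈ A, x ≠ y ∧ (∀ z ∈ Z, r z x → r z y) ∧ ∀ z ∈ Z, r y z → r x z)
    {A : Finset α} (hA : A ⊆ Z) (hin : ∀ x ∈ A, (∃ y, r y x) ∧ ∃ z, r x z)
    (hanti : ∀ x ∈ A, ∀ y ∈ A, x ≠ y → ¬ P49d.Dm s x y) {W : ℕ}
    (hW : ∀ i, (A.filter (fun x => c x = i)).card ≤ W) : A.card ≤ W * w := by
  classical
  have h1 : (A.image c).card ≤ w := by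
    by_contra hlt
    rw [not_le] at hlt
    have hex : ∀ i : ℕ, ∃ x : α, i ∈ A.image c → x ∈ A ∧ c x = i := by
      intro i
      by_cases hi : i ∈ A.image c
      · rw [mem_image] at hi
        obtain ⟨x, hx, hxc⟩ := hi
        exact ⟨x, fun _ => ⟨hx, hxc⟩⟩
      · by_cases hne : A.Nonempty
        · obtain ⟨x, -⟩ := hne
          exact ⟨x, fun h => absurd h hi⟩
        · rw [not_nonempty_iff_eq_empty] at hne
          rw [hne] at hlt
          simp at hlt
    choose p hp using hex
    have hsub : (A.image c).image p ⊆ A := by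
      intro x hx
      rw [mem_image] at hx
      obtain ⟨i, hi, rfl⟩ := hx
      exact (hp i hi).1
    have hcard : ((A.image c).image p).card = (A.image c).card := by
      refine card_image_of_injOn ?_
      intro i hi j hj hij
      have h2 := (hp i hi).2
      have h3 := (hp j hj).2
      rw [← h2, ← h3, hij]
    obtain ⟨x, hx, y, hy, hne, hxy, hxy'⟩ := hc ((A.image c).image p) (hsub.trans hA)
      (fun x hx => hin x (hsub hx)) (by rw [hcard]; exact hlt) (by
      intro x hx y hy hxy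
      rw [mem_image] at hx hy
      obtain ⟨i, hi, rfl⟩ := hx
      obtain ⟨j, hj, rfl⟩ := hy
      rw [(hp i hi).2, (hp j hj).2] at hxy
      rw [hxy])
    have hxA := hsub hx
    have hyA := hsub hy
    refine hanti x hxA y hyA hne (hI.dm x y ⟨fun z hz => ?_, fun z hz => ?_⟩)
    · by_cases hzZ : z ∈ Z
      · exact hxy z hzZ hz
      · exact ((hZ.2 x (hA hxA) y (hA hyA) z (hs _ _ hz).1 hzZ).1).1 hz
    · by_cases hzZ : z ∈ Z
      · exact hxy' z hzZ hz
      · exact ((hZ.2 x (hA hxA) y (hA hyA) z (hs _ _ hz).2 hzZ).2).2 hz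
  refine (card_le_mul_card_image (f := c) A W fun i _ => hW i).trans (Nat.mul_le_mul_left _ h1)

end WidIAux

open WidIAux in
theorem width_boundI (hs : ∀ x y, r x y → x ∈ V ∧ y ∈ V) (hm : 2 ≤ m) (hI : Inv r s V m)
    (hst : ∀ Q, Md s V Q → ¬ Mn s Q m 2) (d : ℕ) :
    ∀ Z : Finset α, Md r V Z → ClsI r w d Z → ∀ A ⊆ Z,
      (∀ x ∈ A, (∃ y, r y x) ∧ ∃ z, r x z) →
      (∀ x ∈ A, ∀ y ∈ A, x ≠ y → ¬ P49d.Dm s x y) → A.card ≤ (m + w) ^ d := by
  induction d with
  | zero =>
    intro Z hZ hcls A hA hin hanti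
    exact (card_le_card hA).trans hcls
  | succ d ih =>
    intro Z hZ hcls A hA hin hanti
    obtain ⟨c, hcl, hc⟩ := hcls
    have hWpos : 1 ≤ (m + w) ^ d := Nat.one_le_pow _ _ (by omega)
    have hblock : ∀ i, (A.filter (fun x => c x = i)).card ≤ (m + w) ^ d := by
      intro i
      refine ih (Z.filter (fun x => c x = i)) (WidthAux.md_block hZ c i ?_) (hcl i) _ ?_ ?_ ?_
      · rcases hc with hc | hc
        · exact Or.inl hc
        · exact Or.inr hc.1
      · exact filter_subset_filter _ hA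
      · intro x hx
        rw [mem_filter] at hx
        exact hin x hx.1
      · intro x hx y hy
        rw [mem_filter] at hx hy
        exact hanti x hx.1 y hy.1
    rw [pow_succ]
    rcases hc with hc | hc
    · have h1 := WidthAux.union_case hs hI hst hZ c hc hA hanti hblock
      refine h1.trans ?_
      have h2 : (m + w) ^ d * (m - 1) + (m + w) ^ d * (w + 1) = (m + w) ^ d * (m + w) := by
        rw [← Nat.mul_add]
        congr 1
        omega
      have h3 : 1 * 1 ≤ (m + w) ^ d * (w + 1) := Nat.mul_le_mul hWpos (by omega)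
      omega
    · have h1 := sum_case (w := w) hs hI hZ c hc.2 hA hin hanti hblock
      exact h1.trans (Nat.mul_le_mul_left _ (by omega))

end Pool.Agent.P49c
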